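import Pool.Agent.Y614.Z.Rte
import Pool.Agent.Y17.X.Cnt
import Pool.Agent.Y698.SG.Wc

/-!
# The diagonals of the curves 14a and 49a at the split primes

`s² = -7` mod `p`: the sum of the diagonal of `14a`, of the diagonal of `49a` and of the symbols of the
primes of `e` is the quadratic character of `(s - 7) / 2 · ∏ e`.
-/

set_option autoImplicit false

open scoped Classical
open Finset

namespace Pool.Agent.Q7.JF

open Pool.Agent.Y703.CQ (nr Sp)
open Pool.Agent.Y17.X (fD)
open Pool.Agent.Y698.SG (n4)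

section

variable {p : ℕ} [Fact p.Prime]

/-- products of squares -/
lemma sq_mul {x y : ZMod p} (hx : x ≠ 0) (hy : y ≠ 0) :
    IsSquare (x * y) ↔ (IsSquare x ↔ IsSquare y) := by
  have h := quadraticChar_one_iff_isSquare (F := ZMod p) (mul_ne_zero hx hy)
  rw [← h, map_mul]
  rcases quadraticChar_dichotomy hx with h1 | h1 <;> rcases quadraticChar_dichotomy hy with h2 | h2
  · rw [h1, h2]
    have a := (quadraticChar_one_iff_isSquare hx).1 h1
    have b := (quadraticChar_one_iff_isSquare hy).1 h2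
    simp [a, b]
  · rw [h1, h2]
    have a := (quadraticChar_one_iff_isSquare hx).1 h1
    have b := quadraticChar_neg_one_iff_not_isSquare.1 h2
    simp only [a, b]
    norm_num
  · rw [h1, h2]
    have a := quadraticChar_neg_one_iff_not_isSquare.1 h1
    have b := (quadraticChar_one_iff_isSquare hy).1 h2
    simp only [a, b]
    norm_num
  · rw [h1, h2]
    have a := quadraticChar_neg_one_iff_not_isSquare.1 h1
    have b := quadraticChar_neg_one_iff_not_isSquare.1 h2
    simp [a, b]

/-- the character with values in `ZMod 2` -/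
noncomputable def ch (x : ZMod p) : ZMod 2 := if IsSquare x then 0 else 1

lemma ch_mul {x y : ZMod p} (hx : x ≠ 0) (hy : y ≠ 0) : ch (x * y) = ch x + ch y := by
  have h := sq_mul hx hy
  unfold ch
  by_cases h1 : IsSquare x <;> by_cases h2 : IsSquare y
  · rw [if_pos (h.2 (by tauto)), if_pos h1, if_pos h2]
    rfl
  · rw [if_neg (fun h3 => h2 ((h.1 h3).1 h1)), if_pos h1, if_neg h2]
    rfl
  · rw [if_neg (fun h3 => h1 ((h.1 h3).2 h2)), if_neg h1, if_pos h2]
    rfl
  · rw [if_pos (h.2 (by tauto)), if_neg h1, if_neg h2]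
    rfl

lemma ch_prod (e : Finset ℕ) (he : ∀ u ∈ e, (u : ZMod p) ≠ 0) :
    ch ((∏ u ∈ e, u : ℕ) : ZMod p) = ∑ u ∈ e, nr p u := by
  induction e using Finset.induction_on with
  | empty =>
    rw [Finset.prod_empty, Finset.sum_empty, Nat.cast_one]
    unfold ch
    rw [if_pos ⟨1, by ring⟩]
  | insert a e ha ih =>
    rw [Finset.prod_insert ha, Finset.sum_insert ha, Nat.cast_mul, ch_mul (he a (mem_insert_self _ _)),
      ih fun u hu => he u (mem_insert_of_mem hu)]
    · congr 1
      unfold ch nr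
      congr
    · push_cast
      exact Finset.prod_ne_zero_iff.2 fun u hu => he u (mem_insert_of_mem hu)

/-- the diagonal of `14a` -/
lemma fD_eq (hp : Sp p) {s : ZMod p} (hs : s ^ 2 = -7) : fD p = ch ((1 + s) / 2) := by
  have hpp := hp.1
  have h8 := hp.2.1
  have n2 : (2 : ZMod p) ≠ 0 := Pool.Agent.Y687.two_ne hpp (by omega)
  have h1 := Pool.Agent.Z701.f_RTE p hp ∅ (by simp)
  have hpr : Pool.Agent.Z700.pr ∅ = 1 := by
    unfold Pool.Agent.Z700.pr
    rfl
  rw [hpr] at h1
  obtain ⟨t, ht⟩ : ∃ t : ZMod p, t = (1 + s) / 2 := ⟨_, rfl⟩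
  obtain ⟨t', ht'⟩ : ∃ t : ZMod p, t = (1 - s) / 2 := ⟨_, rfl⟩
  have e1 : 2 * t = 1 + s := by rw [ht]; field_simp
  have e2 : 2 * t' = 1 - s := by rw [ht']; field_simp
  have e3 : t + t' = 1 := by
    apply mul_left_cancel₀ n2
    linear_combination e1 + e2
  have e4 : t * t' = 2 := by
    apply mul_left_cancel₀ n2
    apply mul_left_cancel₀ n2
    linear_combination 2 * t' * e1 + (1 + s) * e2 - hs
  have t0 : t ≠ 0 := by
    rintro rfl
    rw [zero_mul] at e4
    exact n2 e4.symm
  have t0' : t' ≠ 0 := by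
    rintro rfl
    rw [mul_zero] at e4
    exact n2 e4.symm
  have hsq2 : IsSquare (2 : ZMod p) := (Pool.Agent.Y687.sq_two p (by omega)).2 h8
  have htt : IsSquare t ↔ IsSquare t' := by
    rw [← sq_mul t0 t0', e4]
    exact hsq2
  have hq : t ^ 2 = t - 2 := by
    have : t' = 1 - t := by linear_combination e3
    rw [this] at e4
    linear_combination -e4
  have hq' : t' ^ 2 = t' - 2 := by
    have : t = 1 - t' := by linear_combination e3
    rw [this] at e4
    linear_combination -e4
  have p7 : ∀ z : ZMod p, z ^ 2 = z - 2 → z ^ 7 = 7 * z - 10 := by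
    intro z hz
    have a3 : z ^ 3 = -z - 2 := by
      calc z ^ 3 = z * z ^ 2 := by ring
        _ = _ := by rw [hz]; linear_combination hz
    have a4 : z ^ 4 = -3 * z + 2 := by
      calc z ^ 4 = z * z ^ 3 := by ring
        _ = _ := by rw [a3]; linear_combination -hz
    calc z ^ 7 = z ^ 3 * z ^ 4 := by ring
      _ = _ := by rw [a3, a4]; linear_combination 3 * hz
  have sq7 : ∀ z : ZMod p, z ≠ 0 → (IsSquare (z ^ 7) ↔ IsSquare z) := by
    intro z hz
    have : z ^ 7 = (z ^ 3) ^ 2 * z := by ring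
    rw [this, sq_mul (pow_ne_zero _ (pow_ne_zero _ hz)) hz]
    have : IsSquare ((z ^ 3) ^ 2) := ⟨z ^ 3, by ring⟩
    tauto
  have hR : Pool.Agent.Y700.Rt p 1 ↔ ¬ IsSquare t := by
    unfold Pool.Agent.Y700.Rt
    constructor
    · intro h hc
      refine h (t ^ 7) ?_ ((sq7 t t0).2 hc)
      rw [p7 t hq]
      push_cast
      linear_combination 49 * hq
    · intro h x hx hc
      have hf : (x - t ^ 7) * (x - t' ^ 7) = 0 := by
        rw [p7 t hq, p7 t' hq']
        push_cast at hx
        linear_combination hx - 7 * (x + 10) * e3 + 49 * e4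
      rcases mul_eq_zero.1 hf with h3 | h3
      · rw [sub_eq_zero.1 h3, sq7 t t0] at hc
        exact h hc
      · rw [sub_eq_zero.1 h3, sq7 t' t0'] at hc
        exact h (htt.2 hc)
  rw [hR] at h1
  unfold fD ch
  rw [← ht]
  by_cases h : IsSquare t
  · rw [if_pos h, if_pos (by tauto)]
  · rw [if_neg h, if_neg (h1.1 h)]

/-- the diagonal of `49a` -/
lemma n4_eq (hp : Sp p) {s : ZMod p} (hs : s ^ 2 = -7) : n4 p = ch s := by
  have hpp := hp.1
  have h8 := hp.2.1
  have hm1 : IsSquare (-1 : ZMod p) := (ZMod.exists_sq_eq_neg_one_iff (p := p)).2 (by omega)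
  obtain ⟨i, hi⟩ := hm1
  unfold n4 ch
  congr 1
  apply propext
  constructor
  · rintro ⟨y, hy⟩
    have h1 : (y ^ 2 - s) * (y ^ 2 + s) = 0 := by linear_combination hy - hs
    rcases mul_eq_zero.1 h1 with h2 | h2
    · exact ⟨y, by linear_combination -h2⟩
    · exact ⟨i * y, by linear_combination (y ^ 2) * hi + h2⟩
  · rintro ⟨y, hy⟩
    exact ⟨y, by rw [← hs, hy]; ring⟩

/-- the two diagonals -/
lemma dd_eq (hp : Sp p) {s : ZMod p} (hs : s ^ 2 = -7) (e : Finset ℕ)
    (he : ∀ u ∈ e, (u : ZMod p) ≠ 0) :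
    ∑ u ∈ e, nr p u + (fD p + n4 p) = ch ((s - 7) / 2 * ((∏ u ∈ e, u : ℕ) : ZMod p)) := by
  have hpp := hp.1
  have h8 := hp.2.1
  have h7 := hp.2.2
  have n2 : (2 : ZMod p) ≠ 0 := Pool.Agent.Y687.two_ne hpp (by omega)
  have s0 : s ≠ 0 := by
    rintro rfl
    have h1 : ((7 : ℕ) : ZMod p) = 0 := by
      push_cast
      linear_combination hs
    rw [ZMod.natCast_eq_zero_iff] at h1
    have := (Nat.prime_dvd_prime_iff_eq hpp (by norm_num)).1 h1
    omega
  have t0 : (1 + s) / 2 ≠ 0 := by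
    intro h
    have h1 : (1 + s) = 0 := by
      rcases div_eq_zero_iff.1 h with h | h
      · exact h
      · exact absurd h n2
    have h2 : s = -1 := by linear_combination h1
    rw [h2] at hs
    have h3 : ((2 : ℕ) : ZMod p) ^ 3 = 0 := by
      push_cast
      linear_combination hs
    exact n2 (by exact_mod_cast pow_eq_zero_iff (three_ne_zero) |>.1 h3)
  have hU : ((∏ u ∈ e, u : ℕ) : ZMod p) ≠ 0 := by
    push_cast
    exact Finset.prod_ne_zero_iff.2 he
  have h1 : (s - 7) / 2 = (1 + s) / 2 * s := by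
    field_simp
    linear_combination -hs
  rw [h1, ch_mul (mul_ne_zero t0 s0) hU, ch_mul t0 s0, ch_prod e he, fD_eq hp hs, n4_eq hp hs]
  ring

end

end Pool.Agent.Q7.JF
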