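import Pool.Agent.Y697.JQ.BOX

/-!
# Several diagonals: the count in a box

Adapted from `Pool.Agent.Y697.JQ.BOX` (helper697, helper657): the joint count for several functions on
the diagonal, `F i`, and several masks `V i`. A function on the diagonal is encoded as an additional
column of the labels (a fake prime of the mask).
-/

set_option autoImplicit false

open scoped Classical

namespace Pool.Agent.Q7.JF

open Finset
open Pool.Agent.Y703.CQ
open Pool.Agent.Y657.CQ (Lb lb LN nr_symm nd_iff HB_sub)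
open Pool.Agent.Y687.JQ
open Pool.Agent.Y697.JQ (pt ue mem_pt mem_ue sum_pt add_pt sd_sd gdM_iff sd_union sd_sub)

/-- all the systems with the diagonals `F i` and the masks `V i` are good -/
def GF {M : ℕ} (F : Fin M → ℕ → ZMod 2) (V : Fin M → Finset ℕ) (S : Finset ℕ) : Prop :=
  ∀ i, Gd (F i) (symmDiff S (V i))

/-- the difference of two diagonals, including the masks -/
noncomputable def df {M : ℕ} (F : Fin M → ℕ → ZMod 2) (V : Fin M → Finset ℕ) (i j : Fin M)
    (p : ℕ) : ZMod 2 := ∑ u ∈ symmDiff (V i) (V j), nr p u + (F i p + F j p)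

/-- the labels of the large primes are not degenerate and separate the systems -/
def NF {M : ℕ} (F : Fin M → ℕ → ZMod 2) (V : Fin M → Finset ℕ) (R : ℕ) (W S₀ S₁ : Finset ℕ) :
    Prop :=
  Nd (S₀ ∪ W) S₁ ∧ 2 * (S₀ ∪ W).card + R ≤ (S₁.filter fun p => p % 8 = 1).card ∧
    ∀ i j : Fin M, i ≠ j → 2 * (S₀ ∪ W).card + R ≤
      (S₁.filter fun p => p % 8 = 1 ∧ df F V i j p ≠ 0).card

/-- the labels -/
abbrev LB (M : ℕ) (S₁ : Finset ℕ) : Type := (S₁ → ZMod 2) × (S₁ → ZMod 2) × (Fin M → ZMod 2)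

/-- the label of a prime -/
noncomputable def lB {M : ℕ} (F : Fin M → ℕ → ZMod 2) (S₁ : Finset ℕ) (x : ℕ) : LB M S₁ :=
  (fun u => nr u x, fun u => nr x u, fun i => F i x)

/-- the good labels -/
def LG {ι : Type} {M : ℕ} (V : Fin M → Finset ℕ) (R : ℕ) (S₁ : Finset ℕ) (J1 : Finset ι)
    (β : ι → LB M S₁) : Prop :=
  LN S₁ J1 (fun i => ((β i).1, (β i).2.1, 0)) ∧ 2 * S₁.card + R ≤ J1.card ∧
    ∀ i j : Fin M, i ≠ j → 2 * S₁.card + R ≤
      (J1.filter fun k => ∑ u ∈ pt S₁ (symmDiff (V i) (V j)), (β k).2.1 u +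
        ((β k).2.2 i + (β k).2.2 j) ≠ 0).card

/-! ### the fake primes -/

section fake

variable {U J : Type} [Fintype U] [Fintype J] {M : ℕ}

/-- the mask with the fake prime `i` -/
noncomputable def mk (m : Finset U) (i : Fin M) : Finset (U ⊕ Fin M) :=
  univ.filter fun x => (∃ u ∈ m, x = Sum.inl u) ∨ x = Sum.inr i

/-- the old elements -/
noncomputable def ol (U1 : Finset U) : Finset (U ⊕ Fin M) :=
  univ.filter fun x => ∃ u ∈ U1, x = Sum.inl u

theorem sum_mk (m : Finset U) (i : Fin M) (h : U ⊕ Fin M → ZMod 2) :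
    ∑ x ∈ mk m i, h x = ∑ u ∈ m, h (Sum.inl u) + h (Sum.inr i) := by
  have e : mk m i = m.image Sum.inl ∪ {Sum.inr i} := by
    ext x
    unfold mk
    simp only [mem_filter, mem_univ, true_and, mem_union, mem_image, mem_singleton]
    constructor
    · rintro (⟨u, hu, rfl⟩ | rfl)
      · exact Or.inl ⟨u, hu, rfl⟩
      · exact Or.inr rfl
    · rintro (⟨u, hu, rfl⟩ | rfl)
      · exact Or.inl ⟨u, hu, rfl⟩
      · exact Or.inr rfl
  rw [e, sum_union, sum_image (fun a _ b _ h => Sum.inl_injective h), sum_singleton]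
  rw [disjoint_singleton_right, mem_image]
  rintro ⟨u, -, h⟩
  cases h

theorem mem_ol (U1 : Finset U) (u : U) : (Sum.inl u : U ⊕ Fin M) ∈ ol U1 ↔ u ∈ U1 := by
  unfold ol
  simp only [mem_filter, mem_univ, true_and]
  constructor
  · rintro ⟨v, hv, h⟩
    rw [Sum.inl_injective h]
    exact hv
  · intro h
    exact ⟨u, h, rfl⟩

theorem inr_ol (U1 : Finset U) (i : Fin M) : (Sum.inr i : U ⊕ Fin M) ∉ ol U1 := by
  unfold ol
  simp only [mem_filter, mem_univ, true_and]
  rintro ⟨v, -, h⟩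
  cases h

theorem mem_mk_inl (m : Finset U) (i : Fin M) (u : U) : Sum.inl u ∈ mk m i ↔ u ∈ m := by
  unfold mk
  simp only [mem_filter, mem_univ, true_and]
  constructor
  · rintro (⟨v, hv, h⟩ | h)
    · rw [Sum.inl_injective h]
      exact hv
    · cases h
  · intro h
    exact Or.inl ⟨u, h, rfl⟩

theorem card_ol (U1 : Finset U) : (ol U1 : Finset (U ⊕ Fin M)).card = U1.card := by
  have e : (ol U1 : Finset (U ⊕ Fin M)) = U1.image Sum.inl := by
    ext x
    unfold ol
    simp only [mem_filter, mem_univ, true_and, mem_image]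
    constructor
    · rintro ⟨u, hu, rfl⟩
      exact ⟨u, hu, rfl⟩
    · rintro ⟨u, hu, rfl⟩
      exact ⟨u, hu, rfl⟩
  rw [e, card_image_of_injective _ Sum.inl_injective]

/-- the extended blocks -/
def AA (A : U → U → ZMod 2) (F : Fin M → U → ZMod 2) : U ⊕ Fin M → U ⊕ Fin M → ZMod 2
  | Sum.inl u, Sum.inl v => A u v
  | Sum.inl u, Sum.inr i => F i u
  | Sum.inr _, _ => 0

def BB (B : U → J → ZMod 2) : U ⊕ Fin M → J → ZMod 2
  | Sum.inl u, l => B u l
  | Sum.inr _, _ => 0

def CC (C : J → U → ZMod 2) (G : J → Fin M → ZMod 2) : J → U ⊕ Fin M → ZMod 2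
  | k, Sum.inl u => C k u
  | k, Sum.inr i => G k i

theorem gdM_fake (m U1 : Finset U) (J1 : Finset J) (A : U → U → ZMod 2) (B : U → J → ZMod 2)
    (C : J → U → ZMod 2) (R : J → J → ZMod 2) (F : Fin M → U → ZMod 2) (G : J → Fin M → ZMod 2)
    (i : Fin M) :
    GdM m U1 J1 A B C R (F i) (fun k => G k i) ↔
      GdM (mk m i) (ol U1) J1 (AA A F) (BB B) (CC C G) R (fun _ => 0) (fun _ => 0) := by
  unfold GdM
  constructor
  · intro h x y hx hxm hy h1 h2
    have hr : ∀ j : Fin M, x (Sum.inr j) = 0 := fun j => hx _ (inr_ol U1 j)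
    obtain ⟨k1, k2⟩ := h (fun u => x (Sum.inl u)) y
      (fun u hu => hx _ fun h' => hu ((mem_ol U1 u).1 h'))
      (fun u hu => hxm _ fun h' => hu ((mem_mk_inl m i u).1 h')) hy
      (fun u hu hum => by
        have := h1 (Sum.inl u) ((mem_ol U1 u).2 hu) ((mem_mk_inl m i u).2 hum)
        rw [sum_mk] at this
        simp only [AA, BB, hr, zero_mul, add_zero, zero_add] at this
        rw [← this]
        ring)
      (fun k hk => by
        have := h2 k hk
        rw [sum_mk] at this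
        simp only [CC, hr, zero_mul, add_zero, zero_add] at this
        rw [← this]
        ring)
    refine ⟨?_, k2⟩
    rintro (u | j)
    · exact k1 u
    · exact hr j
  · intro h x y hx hxm hy h1 h2
    let x' : U ⊕ Fin M → ZMod 2 := Sum.elim x fun _ => 0
    obtain ⟨k1, k2⟩ := h x' y
      (by
        rintro (u | j) hu
        · exact hx u fun h' => hu ((mem_ol U1 u).2 h')
        · rfl)
      (by
        rintro (u | j) hu
        · exact hxm u fun h' => hu ((mem_mk_inl m i u).2 h')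
        · rfl) hy
      (by
        rintro (u | j) hu hum
        · have := h1 u ((mem_ol U1 u).1 hu) ((mem_mk_inl m i u).1 hum)
          rw [sum_mk]
          simp only [AA, BB, x', Sum.elim_inl, Sum.elim_inr, zero_mul, add_zero, zero_add]
          rw [← this]
          ring
        · exact absurd hu (inr_ol U1 j))
      (fun k hk => by
        have := h2 k hk
        rw [sum_mk]
        simp only [CC, x', Sum.elim_inl, Sum.elim_inr, zero_mul, add_zero, zero_add]
        rw [← this]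
        ring)
    exact ⟨fun u => k1 (Sum.inl u), k2⟩

end fake

theorem nF_iff {ι : Type} [Fintype ι] {J1 : Finset ι} {S₀ W : Finset ℕ} {M : ℕ}
    {p : ι → ℕ} (F : Fin M → ℕ → ZMod 2) (V : Fin M → Finset ℕ) (R : ℕ) (hV : ∀ i, V i ⊆ W)
    (hp : Function.Injective p) (hJ : ∀ i, p i % 8 = 1 ↔ i ∈ J1) :
    NF F V R W S₀ (univ.image p) ↔ LG V R (S₀ ∪ W) J1 (fun i => lB F (S₀ ∪ W) (p i)) := by
  unfold NF LG
  have h1 : ((univ.image p).filter fun q => q % 8 = 1).card = J1.card := by
    have h2 : (univ.image p).filter (fun q => q % 8 = 1) = J1.image p := by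
      ext q
      simp only [Finset.mem_filter, Finset.mem_image, Finset.mem_univ, true_and]
      constructor
      · rintro ⟨⟨i, rfl⟩, h⟩
        exact ⟨i, (hJ i).1 h, rfl⟩
      · rintro ⟨i, hi, rfl⟩
        exact ⟨⟨i, rfl⟩, (hJ i).2 hi⟩
    rw [h2, Finset.card_image_of_injective _ hp]
  have h3 : ∀ a b : Fin M,
      ((univ.image p).filter fun q => q % 8 = 1 ∧ df F V a b q ≠ 0).card =
      (J1.filter fun i => ∑ u ∈ pt (S₀ ∪ W) (symmDiff (V a) (V b)),
        (lB F (S₀ ∪ W) (p i)).2.1 u + ((lB F (S₀ ∪ W) (p i)).2.2 a +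
          (lB F (S₀ ∪ W) (p i)).2.2 b) ≠ 0).card := by
    intro a b
    have hs : symmDiff (V a) (V b) ⊆ S₀ ∪ W := by
      intro x hx
      rw [Finset.mem_symmDiff] at hx
      rw [Finset.mem_union]
      rcases hx with hx | hx
      · exact Or.inr (hV a hx.1)
      · exact Or.inr (hV b hx.1)
    have h4 : (univ.image p).filter (fun q => q % 8 = 1 ∧ df F V a b q ≠ 0) =
        (J1.filter fun i => ∑ u ∈ pt (S₀ ∪ W) (symmDiff (V a) (V b)),
        (lB F (S₀ ∪ W) (p i)).2.1 u + ((lB F (S₀ ∪ W) (p i)).2.2 a +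
          (lB F (S₀ ∪ W) (p i)).2.2 b) ≠ 0).image p := by
      ext q
      rw [Finset.mem_filter, Finset.mem_image, Finset.mem_image]
      constructor
      · rintro ⟨⟨i, -, rfl⟩, h5, h6⟩
        refine ⟨i, Finset.mem_filter.2 ⟨(hJ i).1 h5, ?_⟩, rfl⟩
        unfold df at h6
        rw [sum_pt hs] at h6
        exact h6
      · rintro ⟨i, hi, rfl⟩
        obtain ⟨hi, h6⟩ := Finset.mem_filter.1 hi
        refine ⟨⟨i, Finset.mem_univ _, rfl⟩, (hJ i).2 hi, ?_⟩
        unfold df
        rw [sum_pt hs]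
        exact h6
    rw [h4, Finset.card_image_of_injective _ hp]
  have h5 : LN (S₀ ∪ W) J1 (fun i => ((lB F (S₀ ∪ W) (p i)).1, (lB F (S₀ ∪ W) (p i)).2.1, 0)) ↔
      LN (S₀ ∪ W) J1 (fun i => lb (fun _ => 0) (S₀ ∪ W) (p i)) := Iff.rfl
  rw [nd_iff (fun _ => 0) hJ, h1, h5]
  refine and_congr_right fun _ => and_congr_right fun _ => ?_
  constructor
  · intro h a b hne
    rw [← h3 a b]
    exact h a b hne
  · intro h a b hne
    rw [h3 a b]
    exact h a b hne

/-- **The joint count in a box**, several diagonals. -/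
theorem box (hEQ : S_EQ) (hJLA : S_JLA) (M : ℕ) (ε : ℝ) (hε : 0 < ε) : ∃ R : ℕ,
    ∀ (F : Fin M → ℕ → ZMod 2) (V : Fin M → Finset ℕ)
    (ι : Type) [Fintype ι] [LinearOrder ι] (J1 : Finset ι) (C : ι → Finset ℕ) (X : ι → ℕ) (κ : ℝ)
    (S₀ W : Finset ℕ), (∀ i, V i ⊆ W) → 0 ≤ κ →
    (∀ i, (C i).card ≤ X i) → HB J1 C X κ → (∀ u ∈ S₀ ∪ W, u.Prime ∧ u ≠ 2) →
    (∀ i, ∀ p ∈ C i, p.Prime ∧ p ≠ 2 ∧ p ∉ S₀ ∪ W ∧ (i ∈ J1 ↔ p % 8 = 1)) →
    (∀ i l, i ≠ l → Disjoint (C i) (C l)) → (∃ i, i ∉ J1) →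
    |(((Fintype.piFinset C).filter fun p => NF F V R W S₀ (univ.image p) ∧
        GF F V (S₀ ∪ univ.image p)).card : ℝ) -
        c2 ^ M * (((Fintype.piFinset C).filter fun p => NF F V R W S₀ (univ.image p)).card : ℝ)| ≤
      ε * (((Fintype.piFinset C).filter fun p => NF F V R W S₀ (univ.image p)).card : ℝ) +
      2 ^ ((2 * (S₀ ∪ W).card + M) * Fintype.card ι + (prs J1).card) * (κ * ∏ j, (X j : ℝ)) := by
  obtain ⟨R₀, hLA⟩ := hJLA M ε hε
  refine ⟨R₀, ?_⟩
  intro F V ι _ _ J1 C X κ S₀ W hVW hκ hCX hHB hS₁ hC hdis hne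
  set S₁ := S₀ ∪ W with hS₁d
  set R : ℝ := 2 ^ (prs J1).card * (κ * ∏ j, (X j : ℝ)) with hR
  have hR0 : 0 ≤ R := mul_nonneg (by positivity)
    (mul_nonneg hκ (Finset.prod_nonneg fun j _ => by positivity))
  -- facts on tuples
  have hinj : ∀ p ∈ Fintype.piFinset C, Function.Injective p := by
    intro p hp i j hij
    rw [Fintype.mem_piFinset] at hp
    by_contra hne
    have h1 := Finset.disjoint_left.1 (hdis i j hne) (hp i)
    rw [hij] at h1
    exact h1 (hp j)
  have hJ : ∀ p ∈ Fintype.piFinset C, ∀ i, p i % 8 = 1 ↔ i ∈ J1 := by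
    intro p hp i
    rw [Fintype.mem_piFinset] at hp
    exact (hC i _ (hp i)).2.2.2.symm
  have hd : ∀ p ∈ Fintype.piFinset C, ∀ i, p i ∉ S₁ := by
    intro p hp i
    rw [Fintype.mem_piFinset] at hp
    exact (hC i _ (hp i)).2.2.1
  have hpr : ∀ p ∈ Fintype.piFinset C, ∀ i, (p i).Prime ∧ p i ≠ 2 := by
    intro p hp i
    rw [Fintype.mem_piFinset] at hp
    exact ⟨(hC i _ (hp i)).1, (hC i _ (hp i)).2.1⟩
  have hU1 : (ue S₁).card ≤ S₁.card := by
    refine (Finset.card_le_univ _).trans ?_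
    rw [Fintype.card_coe]
  have hgd : ∀ p ∈ Fintype.piFinset C, (GF F V (S₀ ∪ univ.image p) ↔
      ∀ i, GdM (mk (pt S₁ (symmDiff S₀ (V i))) i) (ol (ue S₁)) J1
      (AA (fun u v : S₁ => nr u v) (fun i (u : S₁) => F i u))
      (BB (fun (u : S₁) l => nr u (p l))) (CC (fun k (u : S₁) => nr (p k) u) (fun k i => F i (p k)))
      (Pool.Agent.Y703.CQ.ext fun e : prs J1 => nr (p e.1.1) (p e.1.2))
      (fun _ => 0) (fun _ => 0)) := by
    intro p hp
    have hP : ∀ x ∈ univ.image p, x ∉ S₀ ∪ W := by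
      intro x hx
      rw [Finset.mem_image] at hx
      obtain ⟨i, -, rfl⟩ := hx
      exact hd p hp i
    unfold GF
    refine forall_congr' fun i => ?_
    rw [sd_union (hVW i) hP, gdM_iff (F i) (sd_sub (hVW i)) (hinj p hp) (hpr p hp) (hd p hp)
      (hJ p hp)]
    exact gdM_fake (pt S₁ (symmDiff S₀ (V i))) (ue S₁) J1 (fun u v : S₁ => nr u v)
      (fun (u : S₁) l => nr u (p l)) (fun k (u : S₁) => nr (p k) u)
      (Pool.Agent.Y703.CQ.ext fun e : prs J1 => nr (p e.1.1) (p e.1.2))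
      (fun i (u : S₁) => F i u) (fun k i => F i (p k)) i
  -- the part with given labels
  have h1 : ∀ β : ι → LB M S₁, LG V R₀ S₁ J1 β →
      |(((Fintype.piFinset C).filter fun p => (fun i => lB F S₁ (p i)) = β ∧
          GF F V (S₀ ∪ univ.image p)).card : ℝ) -
        c2 ^ M * (((Fintype.piFinset C).filter fun p =>
          (fun i => lB F S₁ (p i)) = β).card : ℝ)| ≤
      ε * (((Fintype.piFinset C).filter fun p => (fun i => lB F S₁ (p i)) = β).card : ℝ) + R := by
    intro β hβ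
    by_cases hemp : ((Fintype.piFinset C).filter fun p => (fun i => lB F S₁ (p i)) = β) = ∅
    · have he2 : ((Fintype.piFinset C).filter fun p => (fun i => lB F S₁ (p i)) = β ∧
          GF F V (S₀ ∪ univ.image p)) = ∅ := by
        rw [← Finset.filter_filter, hemp, Finset.filter_empty]
      rw [he2, hemp]
      simpa using hR0
    obtain ⟨p₀, hp₀⟩ := Finset.nonempty_iff_ne_empty.2 hemp
    rw [Finset.mem_filter] at hp₀
    obtain ⟨hp₀, hp₀β⟩ := hp₀
    set C' : ι → Finset ℕ := fun i => (C i).filter fun q => lB F S₁ q = β i with hC'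
    have hpi : (Fintype.piFinset C).filter (fun p => (fun i => lB F S₁ (p i)) = β) =
        Fintype.piFinset C' := by
      ext p
      simp only [Finset.mem_filter, Fintype.mem_piFinset, hC']
      constructor
      · rintro ⟨h2, h3⟩ i
        exact ⟨h2 i, congrFun h3 i⟩
      · intro h2
        exact ⟨fun i => (h2 i).1, funext fun i => (h2 i).2⟩
    have h2 := hLA (S₁ ⊕ Fin M) ι (ol (ue S₁)) J1 hne
      (fun i => mk (pt S₁ (symmDiff S₀ (V i))) i)
      (AA (fun u v : S₁ => nr u v) (fun i (u : S₁) => F i u))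
      (BB (fun (u : S₁) l => (β l).1 u)) (CC (fun k (u : S₁) => (β k).2.1 u) (fun k => (β k).2.2))
      (fun _ => 0) (fun _ => 0)
      (by
        rintro (u | i) hu (v | j) hv
        · rw [mem_ol] at hu hv
          exact nr_symm (hS₁ u u.2).1 ((mem_ue u).1 hu) (hS₁ v v.2).1 (hS₁ v v.2).2
        · exact absurd hv (inr_ol _ j)
        · exact absurd hu (inr_ol _ i)
        · exact absurd hu (inr_ol _ i))
      (by
        rintro (u | i) hu k hk
        · rw [mem_ol] at hu
          have h3 := congrFun hp₀β k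
          show (β k).1 u = (β k).2.1 u
          rw [← h3]
          exact nr_symm (hS₁ u u.2).1 ((mem_ue u).1 hu) (hpr p₀ hp₀ k).1 (hpr p₀ hp₀ k).2
        · exact absurd hu (inr_ol _ i))
      (by
        rintro w hw0 ⟨x, hx⟩
        obtain ⟨u, rfl⟩ : ∃ u, x = Sum.inl u := by
          rcases x with u | j
          · exact ⟨u, rfl⟩
          · exact absurd (hw0 _ (inr_ol _ j)) hx
        have hwr : ∀ j : Fin M, w (Sum.inr j) = 0 := fun j => hw0 _ (inr_ol _ j)
        have hu8 : (u : ℕ) % 8 = 1 := by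
          by_contra h8
          exact hx (hw0 _ fun hu' => h8 ((mem_ue u).1 ((mem_ol _ u).1 hu')))
        obtain ⟨k, hk, hk2⟩ := hβ.1 (fun u => w (Sum.inl u)) ⟨u, hu8, hx⟩
        refine ⟨k, hk, ?_⟩
        rw [Finset.sum_filter] at hk2
        intro h0
        apply hk2
        refine Eq.trans ?_ h0
        rw [Fintype.sum_sum_type]
        have hz : ∑ j : Fin M, w (Sum.inr j) *
            CC (fun k (u : S₁) => (β k).2.1 u) (fun k => (β k).2.2) k (Sum.inr j) = 0 :=
          Finset.sum_eq_zero fun j _ => by rw [hwr, zero_mul]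
        rw [hz, add_zero]
        refine Finset.sum_congr rfl fun v _ => ?_
        split_ifs with h8
        · rfl
        · rw [hw0 _ fun hv => h8 ((mem_ue v).1 ((mem_ol _ v).1 hv)), zero_mul])
      (by
        have h3 := hβ.2.1
        rw [card_ol]
        omega)
      (by
        intro i j hij
        have h3 := hβ.2.2 i j hij
        have h4 : (J1.filter fun k => ∑ u ∈ mk (pt S₁ (symmDiff S₀ (V i))) i,
            CC (fun k (u : S₁) => (β k).2.1 u) (fun k => (β k).2.2) k u +
            ∑ u ∈ mk (pt S₁ (symmDiff S₀ (V j))) j,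
            CC (fun k (u : S₁) => (β k).2.1 u) (fun k => (β k).2.2) k u ≠ 0) =
            (J1.filter fun k => ∑ u ∈ pt S₁ (symmDiff (V i) (V j)), (β k).2.1 u +
              ((β k).2.2 i + (β k).2.2 j) ≠ 0) := by
          refine Finset.filter_congr fun k _ => ?_
          rw [sum_mk, sum_mk]
          have h5 : ∑ u ∈ pt S₁ (symmDiff (V i) (V j)), (β k).2.1 u =
              ∑ u ∈ pt S₁ (symmDiff S₀ (V i)), (β k).2.1 u +
              ∑ u ∈ pt S₁ (symmDiff S₀ (V j)), (β k).2.1 u := by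
            rw [add_pt, sd_sd]
          rw [h5]
          have h6 : (∑ u ∈ pt S₁ (symmDiff S₀ (V i)),
              CC (fun k (u : S₁) => (β k).2.1 u) (fun k => (β k).2.2) k (Sum.inl u) +
              CC (fun k (u : S₁) => (β k).2.1 u) (fun k => (β k).2.2) k (Sum.inr i)) +
              (∑ u ∈ pt S₁ (symmDiff S₀ (V j)),
              CC (fun k (u : S₁) => (β k).2.1 u) (fun k => (β k).2.2) k (Sum.inl u) +
              CC (fun k (u : S₁) => (β k).2.1 u) (fun k => (β k).2.2) k (Sum.inr j)) =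
              ∑ u ∈ pt S₁ (symmDiff S₀ (V i)), (β k).2.1 u +
              ∑ u ∈ pt S₁ (symmDiff S₀ (V j)), (β k).2.1 u + ((β k).2.2 i + (β k).2.2 j) := by
            simp only [CC]
            ring
          rw [h6]
        rw [h4, card_ol]
        omega)
    obtain ⟨Q, hQ⟩ : ∃ Q : (prs J1 → ZMod 2) → Prop, ∀ α, Q α ↔ ∀ i,
      GdM (mk (pt S₁ (symmDiff S₀ (V i))) i) (ol (ue S₁)) J1
      (AA (fun u v : S₁ => nr u v) (fun i (u : S₁) => F i u))
      (BB (fun (u : S₁) l => (β l).1 u)) (CC (fun k (u : S₁) => (β k).2.1 u) (fun k => (β k).2.2))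
      (Pool.Agent.Y703.CQ.ext α) (fun _ => 0) (fun _ => 0) :=
      ⟨_, fun _ => Iff.rfl⟩
    have h3 := hEQ ι J1 C' X κ hκ
      (fun i => (Finset.card_le_card (Finset.filter_subset _ _)).trans (hCX i))
      (HB_sub hHB fun i q => lB F S₁ q = β i) Q
    have h4 : ((Fintype.piFinset C).filter fun p => (fun i => lB F S₁ (p i)) = β ∧
        GF F V (S₀ ∪ univ.image p)) = ((Fintype.piFinset C').filter fun p =>
          Q fun e => nr (p e.1.1) (p e.1.2)) := by
      rw [← hpi, Finset.filter_filter]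
      refine Finset.filter_congr fun p hp => ?_
      refine and_congr_right fun hl => ?_
      rw [hgd p hp, hQ]
      subst hl
      exact Iff.rfl
    have h5 : (((Fintype.piFinset C').card : ℕ) : ℝ) = ∏ j, ((C' j).card : ℝ) := by
      rw [Fintype.card_piFinset]
      push_cast
      rfl
    rw [h4, hpi, h5]
    have h2' : |((univ.filter Q).card : ℝ) / 2 ^ (prs J1).card - c2 ^ M| ≤ ε := by
      rw [Finset.filter_congr fun α _ => hQ α]
      exact h2
    set n : ℝ := (((Fintype.piFinset C').filter fun p =>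
          Q fun e => nr (p e.1.1) (p e.1.2)).card : ℝ) with hn
    set q : ℝ := ((univ.filter Q).card : ℝ) / 2 ^ (prs J1).card with hq
    set P : ℝ := ∏ j, ((C' j).card : ℝ) with hP
    have hP0 : 0 ≤ P := Finset.prod_nonneg fun j _ => by positivity
    have h6 : |n - c2 ^ M * P| ≤ |n - q * P| + |q - c2 ^ M| * P := by
      have h7 : n - c2 ^ M * P = (n - q * P) + (q - c2 ^ M) * P := by ring
      have h8 : |(q - c2 ^ M) * P| = |q - c2 ^ M| * P := by rw [abs_mul, abs_of_nonneg hP0]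
      rw [h7, ← h8]
      exact abs_add_le _ _
    have h7 : |q - c2 ^ M| * P ≤ ε * P := mul_le_mul_of_nonneg_right h2' hP0
    have h8 : |n - q * P| ≤ R := h3
    linarith
  -- sum over the labels
  set LL := univ.filter (fun β : ι → LB M S₁ => LG V R₀ S₁ J1 β) with hLL
  have hfib : ∀ T : (ι → ℕ) → Prop,
      (((Fintype.piFinset C).filter fun p => NF F V R₀ W S₀ (univ.image p) ∧ T p).card : ℝ) =
      ∑ β ∈ LL, (((Fintype.piFinset C).filter fun p =>
        (fun i => lB F S₁ (p i)) = β ∧ T p).card : ℝ) := by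
    intro T
    rw [Finset.card_eq_sum_card_fiberwise (f := fun (p : ι → ℕ) (i : ι) => lB F S₁ (p i))
      (t := LL) (by
        intro p hp
        rw [Finset.mem_coe, Finset.mem_filter] at hp
        rw [Finset.mem_coe, hLL, Finset.mem_filter]
        exact ⟨Finset.mem_univ _, (nF_iff F V R₀ hVW (hinj p hp.1) (hJ p hp.1)).1 hp.2.1⟩)]
    push_cast
    refine Finset.sum_congr rfl fun β hβ => ?_
    rw [hLL, Finset.mem_filter] at hβ
    congr 2
    ext p
    simp only [Finset.mem_filter]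
    constructor
    · rintro ⟨⟨h3, h4, h4'⟩, h5⟩
      exact ⟨h3, h5, h4'⟩
    · rintro ⟨h3, h4, h5⟩
      refine ⟨⟨h3, ?_, h5⟩, h4⟩
      refine (nF_iff F V R₀ hVW (hinj p h3) (hJ p h3)).2 ?_
      rw [← hS₁d, h4]
      exact hβ.2
  have hf1 := hfib fun p => GF F V (S₀ ∪ univ.image p)
  have hf2 := hfib fun _ => True
  simp only [and_true] at hf2
  rw [hf1, hf2, Finset.mul_sum, ← Finset.sum_sub_distrib]
  refine (Finset.abs_sum_le_sum_abs _ _).trans ?_
  refine (Finset.sum_le_sum fun β hβ => h1 β (Finset.mem_filter.1 hβ).2).trans ?_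
  rw [Finset.sum_add_distrib, ← Finset.mul_sum, Finset.sum_const, nsmul_eq_mul]
  have h5 : ((LL.card : ℕ) : ℝ) ≤ 2 ^ ((2 * S₁.card + M) * Fintype.card ι) := by
    have h6 : LL.card ≤ Fintype.card (ι → LB M S₁) := Finset.card_le_univ _
    rw [Fintype.card_fun, Fintype.card_prod, Fintype.card_prod, Fintype.card_fun, Fintype.card_fun,
      ZMod.card, Fintype.card_coe, Fintype.card_fin, ← pow_add, ← pow_add, ← pow_mul] at h6
    have h7 : (S₁.card + (S₁.card + M)) * Fintype.card ι = (2 * S₁.card + M) * Fintype.card ι := by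
      ring
    rw [h7] at h6
    exact_mod_cast h6
  have h6 := mul_le_mul_of_nonneg_right h5 hR0
  rw [pow_add, mul_assoc]
  linarith

end Pool.Agent.Q7.JF
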