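import Pool.Agent.Y687.JQ.Fin
import Pool.Agent.Q7.JF.Key
import Pool.Agent.Q7.JF.Few

/-!
# Several diagonals: the asymptotics

Adapted from `Pool.Agent.Y687.JQ.Asy` (helper687, helper703).
-/

set_option autoImplicit false

open scoped Classical
open Finset Filter

namespace Pool.Agent.Q7.JF

open Pool.Agent.Y703.CX (sm la jj XX eL zz kk S_SIE eL_tendsto logX_eq rpow_eL HH NN ev_eL one_le_exp
  HH_ge HH_le HH_pos kk_ge kk_le X_pos one_add_log lin_le kap zz_ge zz_pos kap_nonneg kap_pow kap_le)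
open Pool.Agent.Y703.CQ
open Pool.Agent.Y687.JQ (sml_mainJ sml_sum S_JLA S_JBAD)

/-- the pairs of indices -/
def prI (M : ℕ) : Finset (Fin M × Fin M) := univ.filter fun e => e.1 ≠ e.2

/-- the sets with few large split primes with `h p ≠ 0` -/
noncomputable def fw (I K : Finset ℕ) (X z R : ℕ) (h : ℕ → ZMod 2) : Finset (Finset ℕ) :=
  (SS I K X).filter fun S => ((la z S).filter fun p => p % 8 = 1 ∧
      h p ≠ 0).card < 2 * (sm z S).card + R

/-- the sets outside the regular part -/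
theorem out_sub (I K W : Finset ℕ) {M : ℕ} (F : Fin M → ℕ → ZMod 2) (V : Fin M → Finset ℕ) (X z H k R : ℕ) :
    SS I K X \ ((RR I K X z H k (2 * W.card + R)).filter fun S => NF F V R W (sm z S) (la z S)) ⊆
      ((((((SS I K X).filter fun S => k < S.card) ∪
      ((SS I K X).filter fun S => S.card ≤ k ∧
        X < (∏ p ∈ sm z S, p) * ∏ p ∈ la z S, XX H (jj H p))) ∪
      ((SS I K X).filter fun S => ¬ Set.InjOn (jj H) (la z S : Set ℕ))) ∪
      ((SS I K X).filter fun S => ((la z S).filter fun p => p % 8 = 1).card ≤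
        2 * (sm z S).card + (2 * W.card + R) ∨ ∀ p ∈ la z S, p % 8 = 1)) ∪
      ((SS I K X).filter fun S => S.card ≤ k ∧ ¬ Nd (sm z S ∪ W) (la z S))) ∪
      (prI M).biUnion fun e => fw I K X z (2 * W.card + R) (df F V e.1 e.2) := by
  intro S hS
  rw [Finset.mem_sdiff, Finset.mem_filter] at hS
  obtain ⟨h1, h2⟩ := hS
  by_contra hc
  rw [mem_union, mem_union, mem_union, mem_union, mem_union] at hc
  simp only [mem_filter, mem_biUnion] at hc
  push Not at hc
  obtain ⟨⟨⟨⟨⟨c1, c2⟩, c3⟩, c4⟩, c5⟩, c6⟩ := hc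
  have d1 : S.card ≤ k := c1 h1
  have d2 := c2 h1 d1
  have d3 := c3 h1
  have d4 := c4 h1
  have d5 := c5 h1 d1
  have hcu : (sm z S ∪ W).card ≤ (sm z S).card + W.card := card_union_le _ _
  apply h2
  refine ⟨?_, d5, ?_, ?_⟩
  · unfold RR
    rw [mem_filter]
    exact ⟨h1, d3, d1, d2, d4.1, d4.2⟩
  · have := d4.1
    omega
  · intro i j hne
    have h3 := c6 (i, j) (by
      unfold prI
      rw [mem_filter]
      exact ⟨mem_univ _, hne⟩)
    have h4 : ¬ ((la z S).filter fun p => p % 8 = 1 ∧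
        df F V i j p ≠ 0).card < 2 * (sm z S).card + (2 * W.card + R) := by
      intro h
      apply h3
      unfold fw
      rw [mem_filter]
      exact ⟨h1, h⟩
    omega

/-- **The joint proportion**, several diagonals. -/
theorem joint_set {M : ℕ} (I K : Finset ℕ) (F : Fin M → ℕ → ZMod 2) (V : Fin M → Finset ℕ)
    (W : Finset ℕ) (hO : Ok I K) (hW : ∀ u ∈ W, u.Prime ∧ u ≠ 2 ∧ u ≠ 7) (hV : ∀ i, V i ⊆ W)
    (hD : ∀ i j, i ≠ j → Dn (df F V i j)) : Filter.Tendsto
    (fun X : ℕ => (((SS I K X).filter (GF F V)).card : ℝ) / ((SS I K X).card : ℝ))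
    Filter.atTop (nhds (c2 ^ M)) := by
  have h1 := Pool.Agent.Y710.CQ.t_BIL
  have h3 := Pool.Agent.Y356.CQ.t_EQ
  have h4 := Pool.Agent.Y697.JQ.t_JLA
  have hC := Pool.Agent.Y391.CQ.t_CNT
  have hS := Pool.Agent.Y488.CX.t_SIE
  have hH := Pool.Agent.Y475.CQ.t_HAL
  have hB := Pool.Agent.Y697.JQ.t_JBAD
  have hF := Pool.Agent.Y362.CQ.t_FEW
  have hM := Pool.Agent.Y405.CQ.t_MER
  have hCh := Pool.Agent.Y302.CQ.t_CHE
  have hLo := Pool.Agent.Y302.CQ.t_LOW
  have hc2 := Pool.Agent.Y948.CQ.t_C2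
  obtain ⟨c, X₀, hc, hlow⟩ := hLo hM hCh I K hO
  obtain ⟨δB, CB, XB, hδB, hbad⟩ := hB hS hH hM I K W hO hW
  have hdp := dl_pos hO
  have hdl := dl_lt hO
  rw [Metric.tendsto_nhds]
  intro ε hε
  obtain ⟨R, C, hC1, hkey⟩ := key h1 h3 h4 M (ε / 4) (by linarith)
  set Y : ℕ := 2 * W.card + R with hY
  obtain ⟨CF, XF, hfew⟩ := hF hS hM I K Y hO
  have s1 := sml_many hO (t := 1 - dl I) (by linarith) hC
  have s2 := sml_cut hO (t := 1 - dl I) (by linarith) hC
  have s3 := sml_coll hO (t := 1 - dl I) (by linarith) hC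
  have s4 := sml_rpow (t := 1 - dl I) (by linarith) hfew
  have s5 := sml_rpow (t := 1 - dl I) (by linarith) hbad
  have s6 := sml_mainJ hC1 (t := 1 - dl I) (by linarith)
  have s7 : Sml (1 - dl I) fun X => ∑ e ∈ prI M,
      ((fw I K X (zz X) Y (df F V e.1 e.2)).card : ℝ) := by
    refine sml_sum _ _ fun e he => ?_
    unfold prI at he
    rw [mem_filter] at he
    obtain ⟨δ, C', X', hδ, h⟩ := few hS hM (K := K) Y hO (df F V e.1 e.2) (hD e.1 e.2 he.2)
    exact sml_rpow (t := 1 - dl I) (by linarith) h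
  have s := sml_add (sml_add (sml_add (sml_add (sml_add (sml_add s1 s2) s3) s4) s5) s6) s7
  have hδ : (0 : ℝ) < c * ε / 4 := by positivity
  obtain ⟨WB, hWB⟩ : ∃ B : ℕ, ∀ u ∈ W, u ≤ B := ⟨W.sup id, fun u hu => Finset.le_sup (f := id) hu⟩
  have hzt : ∀ᶠ X : ℕ in atTop, WB ≤ zz X := by
    filter_upwards [ev_eL (WB + 1)] with X hX
    have h0 : (1 : ℝ) ≤ eL X := by
      have : (0 : ℝ) ≤ WB := Nat.cast_nonneg _
      linarith
    unfold zz
    apply Nat.le_floor
    have h2 : (WB : ℝ) ≤ (eL X) ^ 3 := by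
      have h3 : (1 : ℝ) * eL X ≤ (eL X) ^ 2 * eL X := by
        apply mul_le_mul_of_nonneg_right _ (by linarith)
        nlinarith
      have h4 : (eL X) ^ 3 = (eL X) ^ 2 * eL X := by ring
      linarith
    have h3 := Real.add_one_le_exp ((eL X) ^ 3)
    linarith
  have hkt : ∀ᶠ X : ℕ in atTop, W.card ≤ kk X := by
    filter_upwards [ev_eL (W.card + 1)] with X hX
    have h2 := kk_ge X
    have h0 : (0 : ℝ) ≤ W.card := Nat.cast_nonneg _
    have : (W.card : ℝ) ≤ kk X := by linarith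
    exact_mod_cast this
  have hMt : ∀ᶠ X : ℕ in atTop, M ≤ kk X := by
    filter_upwards [ev_eL (M + 1)] with X hX
    have h2 := kk_ge X
    have h0 : (0 : ℝ) ≤ M := Nat.cast_nonneg _
    have : (M : ℝ) ≤ kk X := by linarith
    exact_mod_cast this
  filter_upwards [s (c * ε / 4) hδ, ev_eL 1, eventually_ge_atTop X₀, hzt, hkt, hMt] with X hX hl hX0 hz hk hMk
  have hl0 : 0 < eL X := by linarith
  have hlo := hlow X hX0
  have e00 : (-1 + dl I : ℝ) = -(1 - dl I) := by ring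
  rw [e00, rpow_eL hl0] at hlo
  have hXp := X_pos hl0
  have hXp' : (0 : ℝ) < X := by exact_mod_cast hXp
  have hSpos : (0 : ℝ) < ((SS I K X).card : ℝ) := by
    refine lt_of_lt_of_le ?_ hlo
    positivity
  have hN : (HH X : ℝ) * Real.log X < NN X := by
    unfold NN
    push_cast
    exact Nat.lt_floor_add_one _
  have hmain := hkey I K F V X (zz X) (HH X) (kk X) Y (NN X) (kap C X) W hW hV
    (fun u hu => (hWB u hu).trans hz) hk hMk hO hXp (HH_pos hl0) (zz_pos hl)
    (kap_nonneg hC1 X) (kap_pow hC1 hl) hN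
  set T := (RR I K X (zz X) (HH X) (kk X) Y).filter fun S =>
    NF F V R W (sm (zz X) S) (la (zz X) S) with hT
  have hTG : (RR I K X (zz X) (HH X) (kk X) Y).filter
      (fun S => NF F V R W (sm (zz X) S) (la (zz X) S) ∧ GF F V S) = T.filter (GF F V) := by
    rw [hT, filter_filter]
  rw [hTG] at hmain
  have hTS : T ⊆ SS I K X := (filter_subset _ _).trans (filter_subset _ _)
  have hRS : ((RR I K X (zz X) (HH X) (kk X) Y).card : ℝ) ≤ ((SS I K X).card : ℝ) := by
    exact_mod_cast card_le_card (filter_subset _ _)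
  have hp0 : 0 ≤ c2 ^ M := pow_nonneg hc2.2.1.le _
  have hp1 : c2 ^ M ≤ 1 := pow_le_one₀ hc2.2.1.le hc2.2.2.1.le
  have hcmp := cmp (GF F V) T (SS I K X) hTS (c2 ^ M) hp0 hp1
  have hout : ((SS I K X \ T).card : ℝ) ≤
      ((((SS I K X).filter fun S => kk X < S.card).card : ℝ) +
      (((SS I K X).filter fun S => S.card ≤ kk X ∧
        X < (∏ p ∈ sm (zz X) S, p) * ∏ p ∈ la (zz X) S, XX (HH X) (jj (HH X) p)).card : ℝ) +
      (((SS I K X).filter fun S => ¬ Set.InjOn (jj (HH X)) (la (zz X) S : Set ℕ)).card : ℝ) +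
      (((SS I K X).filter fun S => ((la (zz X) S).filter fun p => p % 8 = 1).card ≤
        2 * (sm (zz X) S).card + Y ∨ ∀ p ∈ la (zz X) S, p % 8 = 1).card : ℝ)) +
      (((SS I K X).filter fun S => S.card ≤ kk X ∧
        ¬ Nd (sm (zz X) S ∪ W) (la (zz X) S)).card : ℝ) +
      ∑ e ∈ prI M, ((fw I K X (zz X) Y (df F V e.1 e.2)).card : ℝ) := by
    have g := card_le_card (out_sub I K W F V X (zz X) (HH X) (kk X) R)
    rw [← hY, ← hT] at g
    have g3 := Finset.card_biUnion_le (s := prI M)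
      (t := fun e => fw I K X (zz X) Y (df F V e.1 e.2))
    have g2 := ((g.trans (card_union_le _ _)).trans (Nat.add_le_add_right
      ((card_union_le _ _).trans (Nat.add_le_add_right ((card_union_le _ _).trans
      (Nat.add_le_add_right ((card_union_le _ _).trans
      (Nat.add_le_add_right (card_union_le _ _) _)) _)) _)) _)).trans (Nat.add_le_add_left g3 _)
    exact_mod_cast g2
  have htot : |(((SS I K X).filter (GF F V)).card : ℝ) - c2 ^ M * ((SS I K X).card : ℝ)| ≤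
      ε / 4 * ((SS I K X).card : ℝ) +
        c * ε / 4 * (X * Real.exp (-(1 - dl I) * eL X)) := by
    have g1 : ε / 4 * ((RR I K X (zz X) (HH X) (kk X) Y).card : ℝ) ≤
        ε / 4 * ((SS I K X).card : ℝ) := mul_le_mul_of_nonneg_left hRS (by positivity)
    linarith
  rw [Real.dist_eq]
  have e3 : (((SS I K X).filter (GF F V)).card : ℝ) / ((SS I K X).card : ℝ) - c2 ^ M =
      ((((SS I K X).filter (GF F V)).card : ℝ) - c2 ^ M * ((SS I K X).card : ℝ)) /
        ((SS I K X).card : ℝ) := by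
    field_simp
  rw [e3, abs_div, abs_of_pos hSpos, div_lt_iff₀ hSpos]
  refine lt_of_le_of_lt htot ?_
  have g2 : c * ε / 4 * (X * Real.exp (-(1 - dl I) * eL X)) ≤ ε / 4 * ((SS I K X).card : ℝ) := by
    calc c * ε / 4 * (X * Real.exp (-(1 - dl I) * eL X)) =
          ε / 4 * (c * X * Real.exp (-(1 - dl I) * eL X)) := by ring
      _ ≤ _ := mul_le_mul_of_nonneg_left hlo (by linarith)
  have g4 : 0 < ε * ((SS I K X).card : ℝ) := by positivity
  linarith

/-- **The joint proportion**, several diagonals, in terms of the numbers `D`. -/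
theorem joint {M : ℕ} (I K : Finset ℕ) (F : Fin M → ℕ → ZMod 2) (V : Fin M → Finset ℕ)
    (W : Finset ℕ) (hO : Ok I K) (hW : ∀ u ∈ W, u.Prime ∧ u ≠ 2 ∧ u ≠ 7) (hV : ∀ i, V i ⊆ W)
    (hD : ∀ i j, i ≠ j → Dn (df F V i j)) : Filter.Tendsto
    (fun X : ℕ => (((Icc 1 X).filter fun D => Squarefree D ∧ Cl I K D.primeFactors ∧
        GF F V D.primeFactors).card : ℝ) /
      (((Icc 1 X).filter fun D => Squarefree D ∧ Cl I K D.primeFactors).card : ℝ))
    Filter.atTop (nhds (c2 ^ M)) := by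
  refine (joint_set I K F V W hO hW hV hD).congr fun X => ?_
  have e1 := Pool.Agent.Y514.CQ.card_eq I K X (GF F V)
  have e2 := Pool.Agent.Y514.CQ.card_eq I K X (fun _ => True)
  rw [Finset.filter_true] at e2
  simp only [and_true] at e2
  rw [← e1, ← e2]

end Pool.Agent.Q7.JF
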