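import Pool.Agent.Y287.PC.CHQ
import Pool.Agent.Q7.JF.Ari
import Pool.Agent.Q7.JF.Few
import Pool.Agent.Y687.JQ.Fin
import Pool.Agent.Q7.JF.Box

/-!
# Density of the split primes at which the two diagonals and the symbols do not cancel

`ζ⁴ = -1`, `s² = -7`, `b² = (s - 7) / 2 · U`.  An automorphism `τ` with `τ ζ = ζ`, `τ s = - s` satisfies
`τ² b = - b`, because `(b τ b)² = 14 U²`.  Chebotarev's theorem for `τ²`.
-/

set_option autoImplicit false
set_option linter.style.haveILetI false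

open scoped Classical
open Finset NumberField

namespace Pool.Agent.Q7.JF

open Pool.Agent.W401.Cheb

/-- the automorphism of order four -/
theorem ex_tau (L : Type) [Field L] [NumberField L] [IsGalois ℚ L] (ζ s : L) (hζ : ζ ^ 4 = -1)
    (hs : s ^ 2 = -7) : ∃ τ : Gal(L/ℚ), τ ζ = ζ ∧ τ s = -s := by
  obtain ⟨D, hD0, hD⟩ := torsor L
  have hu : IsUnit ((17 : ℕ) : ZMod 56) := by
    rw [ZMod.isUnit_iff_coprime]
    decide
  obtain ⟨p, hpD, hpp, hp56⟩ := Nat.forall_exists_prime_gt_and_eq_mod hu (D + 7)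
  have : Fact p.Prime := ⟨hpp⟩
  have h56 : p % 56 = 17 := by
    have := (ZMod.natCast_eq_natCast_iff' p 17 56).1 hp56
    omega
  have hnd : ¬ p ∣ D := fun h => by
    have := Nat.le_of_dvd hD0 h
    omega
  have hT := hD p hnd
  obtain ⟨φ⟩ := nonempty_hom hT
  obtain ⟨τ, hτ⟩ := exists_frob hT φ
  have iζ : IsIntegral ℤ ζ := by
    refine ⟨Polynomial.X ^ 4 + Polynomial.C 1, Polynomial.monic_X_pow_add_C _ (by norm_num), ?_⟩
    simp [hζ]
  have is : IsIntegral ℤ s := by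
    refine ⟨Polynomial.X ^ 2 + Polynomial.C 7, Polynomial.monic_X_pow_add_C _ (by norm_num), ?_⟩
    simp [hs]
  obtain ⟨z, hz⟩ : ∃ z : 𝓞 L, z = ⟨ζ, iζ⟩ := ⟨_, rfl⟩
  obtain ⟨t, ht⟩ : ∃ t : 𝓞 L, t = ⟨s, is⟩ := ⟨_, rfl⟩
  have zc : algebraMap (𝓞 L) L z = ζ := by rw [hz]; rfl
  have tc : algebraMap (𝓞 L) L t = s := by rw [ht]; rfl
  have z4 : z ^ 4 = -1 := by
    apply RingOfIntegers.coe_injective
    rw [map_pow, zc, hζ, map_neg, map_one]
  have t2 : t ^ 2 = -7 := by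
    apply RingOfIntegers.coe_injective
    rw [map_pow, tc, hs, map_neg, map_ofNat]
  have h2 : ((2 : ℕ) : AlgebraicClosure (ZMod p)) ≠ 0 := by
    intro h
    rw [CharP.cast_eq_zero_iff (AlgebraicClosure (ZMod p)) p] at h
    have := (Nat.prime_dvd_prime_iff_eq hpp Nat.prime_two).1 h
    omega
  have h7 : ((7 : ℕ) : AlgebraicClosure (ZMod p)) ≠ 0 := by
    intro h
    rw [CharP.cast_eq_zero_iff (AlgebraicClosure (ZMod p)) p] at h
    have := (Nat.prime_dvd_prime_iff_eq hpp (by norm_num)).1 h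
    omega
  have fz4 : φ z ^ 4 = -1 := by rw [← map_pow, z4, map_neg, map_one]
  have ft2 : φ t ^ 2 = -7 := by
    rw [← map_pow, t2, map_neg, map_ofNat]
  have fz0 : φ z ≠ 0 := by
    intro h
    rw [h] at fz4
    norm_num at fz4
  -- the action on the root of unity
  have hzp : φ (τ • z) = φ z := by
    rw [hτ z]
    have aux : ∀ n : ℕ, n % 8 = 1 → φ z ^ n = φ z := by
      intro n hn
      obtain ⟨k, rfl⟩ : ∃ k, n = 8 * k + 1 := ⟨n / 8, by omega⟩
      rw [pow_succ, pow_mul, show (8 : ℕ) = 4 * 2 from rfl, pow_mul, fz4]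
      norm_num
    exact aux p (by omega)
  have w4 : (τ • z) ^ 4 = -1 := by rw [← smul_pow', z4, smul_neg, smul_one]
  have hτz : τ • z = z := by
    have hf : (τ • z - z) * ((τ • z + z) * ((τ • z) ^ 2 + z ^ 2)) = 0 := by
      linear_combination w4 - z4
    rcases mul_eq_zero.1 hf with h | h
    · exact sub_eq_zero.1 h
    · exfalso
      rcases mul_eq_zero.1 h with h | h
      · have h3 := congrArg φ h
        rw [map_add, hzp, map_zero] at h3
        apply h2
        have : (2 : AlgebraicClosure (ZMod p)) * φ z = 0 := by linear_combination h3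
        rcases mul_eq_zero.1 this with h | h
        · exact_mod_cast h
        · exact absurd h fz0
      · have h3 := congrArg φ h
        rw [map_add, map_pow, map_pow, hzp, map_zero] at h3
        apply h2
        have : (2 : AlgebraicClosure (ZMod p)) * φ z ^ 2 = 0 := by linear_combination h3
        rcases mul_eq_zero.1 this with h | h
        · exact_mod_cast h
        · exact absurd h (pow_ne_zero _ fz0)
  -- the action on the square root of -7
  have h7n : ¬ IsSquare (-7 : ZMod p) := by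
    rw [Pool.Agent.Y687.sq_seven p (by omega) (by omega)]
    omega
  have he : (-7 : ZMod p) ^ (p / 2) = -1 := by
    have h70 : (-7 : ZMod p) ≠ 0 := by
      intro h
      have h1 : ((7 : ℕ) : ZMod p) = 0 := by
        push_cast
        linear_combination -h
      rw [ZMod.natCast_eq_zero_iff] at h1
      have := (Nat.prime_dvd_prime_iff_eq hpp (by norm_num)).1 h1
      omega
    rcases ZMod.pow_div_two_eq_neg_one_or_one p h70 with h | h
    · exact absurd ((ZMod.euler_criterion p h70).2 h) h7n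
    · exact h
  have ftp : φ (τ • t) = - φ t := by
    rw [hτ t]
    have h3 := congrArg (algebraMap (ZMod p) (AlgebraicClosure (ZMod p))) he
    rw [map_pow, map_neg, map_neg, map_one, map_ofNat] at h3
    have aux : ∀ n : ℕ, n % 2 = 1 → (-7 : AlgebraicClosure (ZMod p)) ^ (n / 2) = -1 →
        φ t ^ n = - φ t := by
      intro n hn h4
      have hk : n = 2 * (n / 2) + 1 := by omega
      rw [hk, pow_succ, pow_mul, ft2, h4]
      ring
    exact aux p (by omega) h3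
  have u2 : (τ • t) ^ 2 = -7 := by
    rw [← smul_pow', t2, smul_neg]
    congr 1
    have : (7 : 𝓞 L) = ((7 : ℕ) : 𝓞 L) := by norm_num
    rw [this]
    exact map_natCast (MulSemiringAction.toRingHom Gal(L/ℚ) (𝓞 L) τ) 7
  have hτt : τ • t = -t := by
    have hf : (τ • t - t) * (τ • t + t) = 0 := by linear_combination u2 - t2
    rcases mul_eq_zero.1 hf with h | h
    · exfalso
      rw [sub_eq_zero.1 h] at ftp
      have h3 : (2 : AlgebraicClosure (ZMod p)) * φ t = 0 := by linear_combination ftp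
      rcases mul_eq_zero.1 h3 with h | h
      · exact h2 (by exact_mod_cast h)
      · rw [h] at ft2
        apply h7
        push_cast
        linear_combination ft2
    · exact eq_neg_of_add_eq_zero_left h
  refine ⟨τ, ?_, ?_⟩
  · have h3 : algebraMap (𝓞 L) L (τ • z) = algebraMap (𝓞 L) L z := by rw [hτz]
    rw [← zc]
    exact h3
  · have h3 : algebraMap (𝓞 L) L (τ • t) = algebraMap (𝓞 L) L (-t) := by rw [hτt]
    rw [map_neg] at h3
    rw [← tc]
    exact h3

/-- the square of the automorphism -/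
theorem ex_g (L : Type) [Field L] [NumberField L] [IsGalois ℚ L] (ζ s b : L) (U : ℕ) (hU : 0 < U)
    (hζ : ζ ^ 4 = -1) (hs : s ^ 2 = -7) (hb : 2 * b ^ 2 = (s - 7) * U) :
    ∃ g : Gal(L/ℚ), g ζ = ζ ∧ g s = s ∧ g b = -b := by
  obtain ⟨τ, t1, t2⟩ := ex_tau L ζ s hζ hs
  have t2' : τ (τ s) = s := by rw [t2, map_neg, t2, neg_neg]
  have ζ0 : ζ ≠ 0 := by
    rintro rfl
    norm_num at hζ
  have hU0 : (U : L) ≠ 0 := by exact_mod_cast hU.ne'
  have hb1 : 2 * (τ b) ^ 2 = (-s - 7) * U := by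
    have := congrArg τ hb
    rw [map_mul, map_mul, map_sub, map_pow, t2, map_ofNat, map_ofNat, map_natCast] at this
    exact this
  obtain ⟨w, hw⟩ : ∃ w : L, w = (ζ + ζ⁻¹) * s / ζ ^ 2 := ⟨_, rfl⟩
  have hζi : ζ⁻¹ = -ζ ^ 3 := by
    field_simp
    linear_combination hζ
  have w2 : w ^ 2 = 14 := by
    rw [hw, div_pow, div_eq_iff (pow_ne_zero _ (pow_ne_zero _ ζ0)), hζi]
    have : s ^ 2 * (ζ + -ζ ^ 3) ^ 2 = (14 : L) * (ζ ^ 2) ^ 2 := by
      rw [hs]
      linear_combination (-7 * ζ ^ 2 + 7 * ζ ^ 2 + 14 - 7 * ζ ^ 2 - 14 + 14 * (1 - 1)) * hζ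
    linear_combination this
  have wτ : τ w = -w := by
    rw [hw, map_div₀, map_mul, map_add, map_inv₀, map_pow, t1, t2]
    ring
  have hn : (b * τ b) ^ 2 = (U * w) ^ 2 := by
    have h4 : (4 : L) ≠ 0 := by norm_num
    apply mul_left_cancel₀ h4
    linear_combination (2 * (τ b) ^ 2) * hb + (s - 7) * U * hb1 - U ^ 2 * hs - 4 * U ^ 2 * w2
  have hb0 : b ≠ 0 := by
    rintro rfl
    have : (s - 7) * (U : L) = 0 := by rw [← hb]; ring
    rcases mul_eq_zero.1 this with h | h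
    · rw [sub_eq_zero.1 h] at hs
      norm_num at hs
    · exact hU0 h
  have hbt0 : τ b ≠ 0 := by
    intro h
    exact hb0 ((map_eq_zero τ).1 h)
  have hτn : τ (b * τ b) = -(b * τ b) := by
    have hf : (b * τ b - U * w) * (b * τ b + U * w) = 0 := by linear_combination hn
    rcases mul_eq_zero.1 hf with h | h
    · have h1 : b * τ b = U * w := by linear_combination h
      rw [h1, map_mul, map_natCast, wτ]
      ring
    · have h1 : b * τ b = -(U * w) := by linear_combination h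
      rw [h1, map_neg, map_mul, map_natCast, wτ]
      ring
  refine ⟨τ * τ, ?_, ?_, ?_⟩
  · change τ (τ ζ) = ζ
    rw [t1, t1]
  · exact t2'
  · change τ (τ b) = -b
    rw [map_mul] at hτn
    apply mul_left_cancel₀ hbt0
    linear_combination hτn

/-- the primes with Frobenius `g` -/
theorem loc (L : Type) [Field L] [NumberField L] [IsGalois ℚ L] (ζ s b : L) (U : ℕ)
    (hζ : ζ ^ 4 = -1) (hs : s ^ 2 = -7) (hb : 2 * b ^ 2 = (s - 7) * U)
    (g : Gal(L/ℚ)) (g1 : g ζ = ζ) (g2 : g s = s) (g3 : g b = -b) (p : ℕ) (hpp : p.Prime)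
    (hp : ¬ p ∣ 14 * U) (hx : xp L g p ≠ 0) :
    Pool.Agent.Y703.CQ.Sp p ∧ ∃ t β : ZMod p, t ^ 2 = -7 ∧ 2 * β = (t - 7) * U ∧ ¬ IsSquare β := by
  have : Fact p.Prime := ⟨hpp⟩
  unfold xp at hx
  rw [dif_pos hpp] at hx
  obtain ⟨⟨φ, hφ⟩⟩ : Nonempty {φ : 𝓞 L →+* AlgebraicClosure (ZMod p) //
      HasFrob p φ g} := by
    by_contra h
    rw [not_nonempty_iff] at h
    exact hx Nat.card_of_isEmpty
  have hp2 : p ≠ 2 := by
    rintro rfl
    exact hp ⟨7 * U, by ring⟩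
  have hp7 : p ≠ 7 := by
    rintro rfl
    exact hp ⟨2 * U, by ring⟩
  have hpU : ¬ p ∣ U := fun h => hp (h.mul_left 14)
  have iζ : IsIntegral ℤ ζ := by
    refine ⟨Polynomial.X ^ 4 + Polynomial.C 1, Polynomial.monic_X_pow_add_C _ (by norm_num), ?_⟩
    simp [hζ]
  have is : IsIntegral ℤ s := by
    refine ⟨Polynomial.X ^ 2 + Polynomial.C 7, Polynomial.monic_X_pow_add_C _ (by norm_num), ?_⟩
    simp [hs]
  have hb4 : b ^ 4 + 7 * U * b ^ 2 + 14 * U ^ 2 = 0 := by
    have h4 : (4 : L) ≠ 0 := by norm_num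
    apply mul_left_cancel₀ h4
    linear_combination (2 * b ^ 2 + (s - 7) * U + 14 * U) * hb + U ^ 2 * hs
  have ib : IsIntegral ℤ b := by
    refine ⟨Polynomial.X ^ 4 + (Polynomial.C ((7 * U : ℕ) : ℤ) * Polynomial.X ^ 2 +
      Polynomial.C ((14 * U ^ 2 : ℕ) : ℤ)), ?_, ?_⟩
    · apply Polynomial.monic_X_pow_add
      refine lt_of_le_of_lt (Polynomial.degree_quadratic_le (a := ((7 * U : ℕ) : ℤ)) (b := 0)
        (c := ((14 * U ^ 2 : ℕ) : ℤ)) |> fun h => ?_) (by norm_num : (2 : WithBot ℕ) < 4)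
      simpa using h
    · simp only [Polynomial.eval₂_add, Polynomial.eval₂_mul, Polynomial.eval₂_X_pow,
        Polynomial.eval₂_C]
      simp only [algebraMap_int_eq, eq_intCast]
      push_cast
      linear_combination hb4
  obtain ⟨z, hz⟩ : ∃ z : 𝓞 L, z = ⟨ζ, iζ⟩ := ⟨_, rfl⟩
  obtain ⟨t, ht⟩ : ∃ t : 𝓞 L, t = ⟨s, is⟩ := ⟨_, rfl⟩
  obtain ⟨c, hc⟩ : ∃ t : 𝓞 L, t = ⟨b, ib⟩ := ⟨_, rfl⟩
  have zc : algebraMap (𝓞 L) L z = ζ := by rw [hz]; rfl
  have tc : algebraMap (𝓞 L) L t = s := by rw [ht]; rfl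
  have cc : algebraMap (𝓞 L) L c = b := by rw [hc]; rfl
  have z4 : z ^ 4 = -1 := by
    apply RingOfIntegers.coe_injective
    rw [map_pow, zc, hζ, map_neg, map_one]
  have t2 : t ^ 2 = -7 := by
    apply RingOfIntegers.coe_injective
    rw [map_pow, tc, hs, map_neg, map_ofNat]
  have c2 : 2 * c ^ 2 = (t - 7) * U := by
    apply RingOfIntegers.coe_injective
    rw [map_mul, map_pow, map_mul, map_sub, tc, cc, map_ofNat, map_ofNat, map_natCast, hb]
  have k2 : ((2 : ℕ) : AlgebraicClosure (ZMod p)) ≠ 0 := by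
    intro h
    rw [CharP.cast_eq_zero_iff (AlgebraicClosure (ZMod p)) p] at h
    exact hp2 ((Nat.prime_dvd_prime_iff_eq hpp Nat.prime_two).1 h)
  have k7 : ((7 : ℕ) : AlgebraicClosure (ZMod p)) ≠ 0 := by
    intro h
    rw [CharP.cast_eq_zero_iff (AlgebraicClosure (ZMod p)) p] at h
    exact hp7 ((Nat.prime_dvd_prime_iff_eq hpp (by norm_num)).1 h)
  have kU : ((U : ℕ) : AlgebraicClosure (ZMod p)) ≠ 0 := by
    intro h
    rw [CharP.cast_eq_zero_iff (AlgebraicClosure (ZMod p)) p] at h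
    exact hpU h
  have gz : g • z = z := by
    apply RingOfIntegers.coe_injective
    rw [zc]
    change g (algebraMap (𝓞 L) L z) = ζ
    rw [zc, g1]
  have gt : g • t = t := by
    apply RingOfIntegers.coe_injective
    rw [tc]
    change g (algebraMap (𝓞 L) L t) = s
    rw [tc, g2]
  have gc : g • c = -c := by
    apply RingOfIntegers.coe_injective
    rw [map_neg, cc]
    change g (algebraMap (𝓞 L) L c) = -b
    rw [cc, g3]
  have fz := hφ z
  have ft := hφ t
  have fc := hφ c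
  rw [gz] at fz
  rw [gt] at ft
  rw [gc, map_neg] at fc
  have fz4 : φ z ^ 4 = -1 := by rw [← map_pow, z4, map_neg, map_one]
  have ft2 : φ t ^ 2 = -7 := by rw [← map_pow, t2, map_neg, map_ofNat]
  have fc2 : 2 * φ c ^ 2 = (φ t - 7) * U := by
    have := congrArg φ c2
    rw [map_mul, map_mul, map_pow, map_sub, map_ofNat, map_ofNat, map_natCast] at this
    exact this
  have fz0 : φ z ≠ 0 := by
    intro h
    rw [h] at fz4
    norm_num at fz4
  have fr : ∀ x : AlgebraicClosure (ZMod p), x ^ p = x → ∃ a : ZMod p,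
      algebraMap (ZMod p) (AlgebraicClosure (ZMod p)) a = x := by
    intro x hx
    exact W54.ChTor.frob_fixed p x hx
  obtain ⟨a, ha⟩ := fr _ fz.symm
  obtain ⟨d, hd⟩ := fr _ ft.symm
  have inj : Function.Injective (algebraMap (ZMod p) (AlgebraicClosure (ZMod p))) :=
    (algebraMap (ZMod p) (AlgebraicClosure (ZMod p))).injective
  have a4 : a ^ 4 = -1 := by
    apply inj
    rw [map_pow, ha, fz4, map_neg, map_one]
  have d2 : d ^ 2 = -7 := by
    apply inj
    rw [map_pow, hd, ft2, map_neg, map_ofNat]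
  have h8 : p % 8 = 1 := by
    have n2 : (2 : ZMod p) ≠ 0 := Pool.Agent.Y687.two_ne hpp hp2
    have a0 : a ≠ 0 := by
      rintro rfl
      norm_num at a4
    have ho : orderOf a = 2 ^ (2 + 1) := by
      apply orderOf_eq_prime_pow
      · rw [show (2 : ℕ) ^ 2 = 4 from rfl, a4]
        intro h
        apply n2
        linear_combination -h
      · rw [show (2 : ℕ) ^ (2 + 1) = 4 * 2 from rfl, pow_mul, a4]
        ring
    have h1 := ZMod.orderOf_dvd_card_sub_one a0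
    rw [ho] at h1
    have := hpp.two_le
    omega
  have h7 : p % 7 = 1 ∨ p % 7 = 2 ∨ p % 7 = 4 := by
    rw [← Pool.Agent.Y687.sq_seven p (by omega) hp7]
    exact ⟨d, by rw [← d2]; ring⟩
  have n2 : (2 : ZMod p) ≠ 0 := Pool.Agent.Y687.two_ne hpp hp2
  refine ⟨⟨hpp, h8, h7⟩, d, (d - 7) * U / 2, d2, by field_simp, ?_⟩
  rintro ⟨y, hy⟩
  have e1 : 2 * (y * y) = (d - 7) * U := by rw [← hy]; field_simp
  have e2 := congrArg (algebraMap (ZMod p) (AlgebraicClosure (ZMod p))) e1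
  rw [map_mul, map_mul, map_mul, map_sub, hd, map_ofNat, map_ofNat, map_natCast] at e2
  have k2' : (2 : AlgebraicClosure (ZMod p)) ≠ 0 := by exact_mod_cast k2
  have e3 : (φ c - algebraMap (ZMod p) (AlgebraicClosure (ZMod p)) y) *
      (φ c + algebraMap (ZMod p) (AlgebraicClosure (ZMod p)) y) = 0 := by
    apply mul_left_cancel₀ k2'
    linear_combination fc2 - e2
  have fy : (algebraMap (ZMod p) (AlgebraicClosure (ZMod p)) y) ^ p =
      algebraMap (ZMod p) (AlgebraicClosure (ZMod p)) y := by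
    rw [← map_pow, ZMod.pow_card]
  have e4 : φ c ^ p = φ c := by
    rcases mul_eq_zero.1 e3 with h | h
    · rw [sub_eq_zero.1 h, fy]
    · rw [eq_neg_of_add_eq_zero_left h, Odd.neg_pow (hpp.odd_of_ne_two hp2), fy]
  rw [e4] at fc
  have e5 : φ c = 0 := by
    have : (2 : AlgebraicClosure (ZMod p)) * φ c = 0 := by linear_combination -fc
    rcases mul_eq_zero.1 this with h | h
    · exact absurd h k2'
    · exact h
  rw [e5] at fc2
  have e6 : (φ t - 7) * (U : AlgebraicClosure (ZMod p)) = 0 := by rw [← fc2]; ring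
  rcases mul_eq_zero.1 e6 with h | h
  · have h1 : φ t = 7 := by linear_combination h
    rw [h1] at ft2
    have h3 : ((2 : ℕ) : AlgebraicClosure (ZMod p)) ^ 3 * ((7 : ℕ) : AlgebraicClosure (ZMod p)) = 0 := by
      push_cast
      linear_combination ft2
    rcases mul_eq_zero.1 h3 with h4 | h4
    · exact k2 (pow_eq_zero_iff three_ne_zero |>.1 h4)
    · exact k7 h4
  · exact kU h

/-- a normal number field containing the three elements -/
theorem ex_L (U : ℕ) : ∃ (L : Type) (_ : Field L) (_ : NumberField L) (_ : IsGalois ℚ L) (ζ s b : L),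
    ζ ^ 4 = -1 ∧ s ^ 2 = -7 ∧ 2 * b ^ 2 = (s - 7) * U := by
  obtain ⟨ζ, hζ⟩ := IsAlgClosed.exists_pow_nat_eq (-1 : AlgebraicClosure ℚ) (by norm_num : 0 < 4)
  obtain ⟨s, hs⟩ := IsAlgClosed.exists_pow_nat_eq (-7 : AlgebraicClosure ℚ) (by norm_num : 0 < 2)
  obtain ⟨b, hb⟩ := IsAlgClosed.exists_pow_nat_eq ((s - 7) * U / 2 : AlgebraicClosure ℚ)
    (by norm_num : 0 < 2)
  have hint : ∀ x : AlgebraicClosure ℚ, IsIntegral ℚ x := fun x => Algebra.IsIntegral.isIntegral x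
  have hE : FiniteDimensional ℚ (IntermediateField.adjoin ℚ ({ζ, s, b} : Set (AlgebraicClosure ℚ))) :=
    IntermediateField.finiteDimensional_adjoin fun x _ => hint x
  have hn : Normal ℚ (AlgebraicClosure ℚ) := IsAlgClosure.normal ℚ _
  obtain ⟨E', hfin, hnor, hle⟩ := Pool.Agent.Y219.PC.exists_nc ℚ (AlgebraicClosure ℚ) _ hE
  have hnf : NumberField E' :=
    @NumberField.of_module_finite ℚ E' _ _ _ (IntermediateField.algebra' E') hfin
  have e : (IntermediateField.algebra' E' : Algebra ℚ E') = DivisionRing.toRatAlgebra :=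
    Subsingleton.elim _ _
  have hgal : @IsGalois ℚ _ E' _ DivisionRing.toRatAlgebra := by
    rw [← e]
    exact @IsGalois.mk ℚ _ E' _ (IntermediateField.algebra' E') inferInstance hnor
  have m : ∀ x ∈ ({ζ, s, b} : Set (AlgebraicClosure ℚ)), x ∈ E' := fun x hx =>
    hle (IntermediateField.subset_adjoin ℚ _ hx)
  refine ⟨E', inferInstance, hnf, hgal, ⟨ζ, m ζ (by simp)⟩, ⟨s, m s (by simp)⟩, ⟨b, m b (by simp)⟩,
    ?_, ?_, ?_⟩
  · apply Subtype.ext
    simpa using hζ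
  · apply Subtype.ext
    have : ((-7 : E') : AlgebraicClosure ℚ) = -7 := by
      push_cast
      rfl
    rw [this]
    simpa using hs
  · apply Subtype.ext
    change (2 : AlgebraicClosure ℚ) * b ^ 2 = (s - 7) * U
    rw [hb]
    ring

/-- the primes at which the sum of the diagonals and of the symbols is not zero -/
theorem dens (U : ℕ) (hU : 0 < U) : ∃ δ C : ℝ, 0 < δ ∧ ∀ N : ℕ, 3 ≤ N →
    ∃ T : Finset ℕ, (∀ p ∈ T, p ≤ N ∧ ¬ p ∣ 14 * U ∧ Pool.Agent.Y703.CQ.Sp p ∧ ∃ t β : ZMod p,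
      t ^ 2 = -7 ∧ 2 * β = (t - 7) * U ∧ ¬ IsSquare β) ∧
      δ * Real.log (Real.log N) - C ≤ ∑ p ∈ T, (1 / p : ℝ) := by
  obtain ⟨L, i1, i2, i3, ζ, s, b, h1, h2, h3⟩ := ex_L U
  obtain ⟨g, g1, g2, g3⟩ := ex_g L ζ s b U hU h1 h2 h3
  obtain ⟨δ, hδ, C, hC⟩ := Pool.Agent.Y287.PC.cheb_quant L g (14 * U).primeFactors
  refine ⟨δ, C, hδ, fun N hN => ?_⟩
  obtain ⟨T, hT, hT2⟩ := hC N hN
  refine ⟨T, fun p hp => ?_, hT2⟩
  obtain ⟨a1, a2, a3, a4⟩ := hT p hp
  have hnd : ¬ p ∣ 14 * U := fun h => a3 (Nat.mem_primeFactors.2 ⟨a2, h, by positivity⟩)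
  exact ⟨a1, hnd, loc L ζ s b U h1 h2 h3 g g1 g2 g3 p a2 hnd a4⟩

/-- a lower bound by subsets -/
theorem Dn_of {h : ℕ → ZMod 2} (H : ∃ δ C : ℝ, 0 < δ ∧ ∀ N : ℕ, 3 ≤ N →
    ∃ T : Finset ℕ, (∀ p ∈ T, p ≤ N ∧ BH h p) ∧
      δ * Real.log (Real.log N) - C ≤ ∑ p ∈ T, (1 / p : ℝ)) : Dn h := by
  obtain ⟨δ, C, hδ, hC⟩ := H
  refine ⟨δ, C, hδ, fun y hy => ?_⟩
  obtain ⟨T, hT, hT2⟩ := hC y hy
  refine hT2.trans ?_
  apply Finset.sum_le_sum_of_subset_of_nonneg
  · intro p hp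
    obtain ⟨h1, h2⟩ := hT p hp
    have h3 := h2.1.1
    rw [mem_filter]
    refine ⟨?_, h2⟩
    unfold Pool.Agent.Y495.CX.Few.PN
    rw [mem_filter, mem_Icc]
    exact ⟨⟨h3.one_lt.le, h1⟩, h3⟩
  · intro p _ _
    positivity

open Pool.Agent.Y17.X (fD)
open Pool.Agent.Y698.SG (n4)
open Pool.Agent.Y703.CQ (nr)

/-- different diagonals -/
theorem Dn_diff (e : Finset ℕ) (he : ∀ u ∈ e, u.Prime) :
    Dn (fun p => ∑ u ∈ e, nr p u + (fD p + n4 p)) := by
  apply Dn_of
  obtain ⟨δ, C, hδ, hC⟩ := dens (∏ u ∈ e, u) (Finset.prod_pos fun u hu => (he u hu).pos)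
  refine ⟨δ, C, hδ, fun N hN => ?_⟩
  obtain ⟨T, hT, hT2⟩ := hC N hN
  refine ⟨T, fun p hp => ?_, hT2⟩
  obtain ⟨a1, a2, a3, t, β, a4, a5, a6⟩ := hT p hp
  have hpp := a3.1
  have : Fact p.Prime := ⟨hpp⟩
  refine ⟨a1, a3, ?_⟩
  have hne : ∀ u ∈ e, (u : ZMod p) ≠ 0 := by
    intro u hu h
    rw [ZMod.natCast_eq_zero_iff] at h
    exact a2 ((h.trans (Finset.dvd_prod_of_mem _ hu)).mul_left 14)
  simp only
  rw [dd_eq a3 a4 e hne]
  have n2 : (2 : ZMod p) ≠ 0 := Pool.Agent.Y687.two_ne hpp (by have := a3.2.1; omega)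
  have hβ : β = (t - 7) / 2 * ((∏ u ∈ e, u : ℕ) : ZMod p) := by
    field_simp
    linear_combination a5
  unfold ch
  rw [← hβ, if_neg a6]
  exact one_ne_zero

/-- the same diagonal -/
theorem Dn_same (e : Finset ℕ) (hne : e.Nonempty) (he : ∀ u ∈ e, u.Prime ∧ u ≠ 2 ∧ u ≠ 7) :
    Dn (fun p => ∑ u ∈ e, nr p u) := by
  obtain ⟨C, hC⟩ := Pool.Agent.Y405.JQ.t_JMER e hne he
  refine ⟨1 / 16, C, by norm_num, fun y hy => ?_⟩
  have h1 := (abs_le.1 (hC y hy)).1
  have h2 : ∑ p ∈ (range (y + 1)).filter (fun p => Pool.Agent.Y703.CQ.Sp p ∧ p ∉ e ∧ ∑ u ∈ e, nr p u ≠ 0),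
      (1 : ℝ) / p ≤ ∑ p ∈ (Pool.Agent.Y495.CX.Few.PN y).filter (BH fun p => ∑ u ∈ e, nr p u),
        (1 : ℝ) / p := by
    apply Finset.sum_le_sum_of_subset_of_nonneg
    · intro p hp
      rw [mem_filter, mem_range] at hp
      have h3 := hp.2.1.1
      rw [mem_filter]
      refine ⟨?_, hp.2.1, hp.2.2.2⟩
      unfold Pool.Agent.Y495.CX.Few.PN
      rw [mem_filter, mem_Icc]
      exact ⟨⟨h3.one_lt.le, by omega⟩, h3⟩
    · intro p _ _
      positivity
  linarith

end Pool.Agent.Q7.JF
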