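import Pool.Agent.Q7.JF.Asy
import Pool.Agent.Q7.JF.Chb
import Pool.Agent.Q6.XK.Den
import Pool.Agent.Y17.X.Joint

/-!
# The joint law for the twists of `X_0(14)` and of `X_0(49)` by the same `D`

Events: `(false, m)`: the matrix of the twist of `X_0(14)` by `m D` is nonsingular; `(true, m)`: the
same for `X_0(49)`.
-/

set_option autoImplicit false

open scoped Classical
open Finset Filter

namespace Pool.Agent.Q7.JF

open Pool.Agent.Y17.X (fD)
open Pool.Agent.Y698.SG (n4)
open Pool.Agent.Y703.CQ (nr Gd Cl c2 Ok)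
open Pool.Agent.Q6.XK (Fam fam_iff)

/-- the diagonal -/
noncomputable def dg (b : Bool) : ℕ → ZMod 2 := if b then n4 else fD

/-- the event -/
def ev (a : Bool × ℕ) (S : Finset ℕ) : Prop := Gd (dg a.1) (symmDiff S a.2.primeFactors)

/-- the class: squarefree, the prime factors are `1` modulo `8` and split in `ℚ(√-7)` or `5` modulo
`8` and inert -/
def Cls (D : ℕ) : Prop := Squarefree D ∧ ∀ p : ℕ, p.Prime → p ∣ D →
  (p % 8 = 1 ∧ (p % 7 = 1 ∨ p % 7 = 2 ∨ p % 7 = 4)) ∨
  (p % 8 = 5 ∧ (p % 7 = 3 ∨ p % 7 = 5 ∨ p % 7 = 6))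

lemma fam_cls (D : ℕ) : Fam D ↔ Cls D ∧ D % 8 = 1 := by
  unfold Fam Cls
  tauto

lemma fam_pr {m : ℕ} (hm : Cls m) {u : ℕ} (hu : u ∈ m.primeFactors) : u.Prime ∧ u ≠ 2 ∧ u ≠ 7 := by
  obtain ⟨h1, h2, -⟩ := Nat.mem_primeFactors.1 hu
  have h3 := hm.2 u h1 h2
  refine ⟨h1, ?_, ?_⟩ <;> rintro rfl <;> omega

lemma fam_inj {m m' : ℕ} (hm : Cls m) (hm' : Cls m') (h : m.primeFactors = m'.primeFactors) :
    m = m' := by
  rw [← Nat.prod_primeFactors_of_squarefree hm.1, h, Nat.prod_primeFactors_of_squarefree hm'.1]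

lemma Dn_ev {a a' : Bool × ℕ} (ha : Cls a.2) (ha' : Cls a'.2) (hne : a ≠ a') :
    Dn (fun p => ∑ u ∈ symmDiff a.2.primeFactors a'.2.primeFactors, nr p u +
      (dg a.1 p + dg a'.1 p)) := by
  have hpr : ∀ u ∈ symmDiff a.2.primeFactors a'.2.primeFactors, u.Prime ∧ u ≠ 2 ∧ u ≠ 7 := by
    intro u hu
    rcases Finset.mem_symmDiff.1 hu with h | h
    · exact fam_pr ha h.1
    · exact fam_pr ha' h.1
  obtain ⟨b, m⟩ := a
  obtain ⟨b', m'⟩ := a'
  have h2 : ∀ x : ZMod 2, x + x = 0 := by decide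
  have same : m ≠ m' → Dn (fun p => ∑ u ∈ symmDiff m.primeFactors m'.primeFactors, nr p u) := by
    intro h
    refine Dn_same _ ?_ hpr
    rw [Finset.nonempty_iff_ne_empty]
    intro h3
    exact h (fam_inj ha ha' (symmDiff_eq_bot.1 h3))
  have dif := Dn_diff (symmDiff m.primeFactors m'.primeFactors) fun u hu => (hpr u hu).1
  cases b <;> cases b'
  · have h3 := same fun h => hne (by rw [h])
    simpa [dg, h2] using h3
  · simpa [dg] using dif
  · simp only [dg]
    simpa [add_comm] using dif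
  · have h3 := same fun h => hne (by rw [h])
    simpa [dg, h2] using h3

/-- **the joint proportion** -/
theorem joint_fam (A : Finset (Bool × ℕ)) (hA : ∀ a ∈ A, Cls a.2) : Tendsto
    (fun X : ℕ => (((Icc 1 X).filter fun D => Fam D ∧ ∀ a ∈ A, ev a D.primeFactors).card : ℝ) /
      (((Icc 1 X).filter fun D => Fam D).card : ℝ)) atTop (nhds (c2 ^ A.card)) := by
  obtain ⟨e⟩ : Nonempty (Fin A.card ≃ A) := ⟨A.equivFin.symm⟩
  have hW : ∀ u ∈ A.biUnion (fun a => a.2.primeFactors), u.Prime ∧ u ≠ 2 ∧ u ≠ 7 := by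
    intro u hu
    obtain ⟨a, ha, h⟩ := Finset.mem_biUnion.1 hu
    exact fam_pr (hA a ha) h
  have h := joint {5} {0} (fun i => dg (e i).1.1) (fun i => (e i).1.2.primeFactors)
    (A.biUnion fun a => a.2.primeFactors) ⟨Or.inl rfl, Or.inl (by decide)⟩ hW
    (fun i => Finset.subset_biUnion_of_mem (fun a : Bool × ℕ => a.2.primeFactors) (e i).2) (by
      intro i j hij
      exact Dn_ev (hA _ (e i).2) (hA _ (e j).2) fun h => hij (e.injective (Subtype.ext h)))
  refine h.congr fun X => ?_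
  have e1 : ((Finset.Icc 1 X).filter fun D => Fam D ∧ ∀ a ∈ A, ev a D.primeFactors) =
      (Finset.Icc 1 X).filter fun D => Squarefree D ∧ Cl {5} {0} D.primeFactors ∧
        GF (fun i => dg (e i).1.1) (fun i => (e i).1.2.primeFactors) D.primeFactors := by
    refine Finset.filter_congr fun D _ => ?_
    rw [fam_iff, and_assoc]
    refine and_congr_right fun _ => and_congr_right fun _ => ?_
    unfold GF ev
    constructor
    · intro h i
      exact h _ (e i).2
    · intro h a ha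
      have := h (e.symm ⟨a, ha⟩)
      simp only [Equiv.apply_symm_apply] at this
      exact this
  have e2 : ((Finset.Icc 1 X).filter fun D => Fam D) =
      (Finset.Icc 1 X).filter fun D => Squarefree D ∧ Cl {5} {0} D.primeFactors :=
    Finset.filter_congr fun D _ => fam_iff D
  rw [e1, e2]

/-- **the joint law** -/
theorem pattern_fam (K : Finset (Bool × ℕ)) : (∀ a ∈ K, Cls a.2) → ∀ G : Finset (Bool × ℕ),
    (∀ a ∈ G, Cls a.2) → Disjoint G K → Tendsto
    (fun X : ℕ => (((Icc 1 X).filter fun D => Fam D ∧ (∀ a ∈ G, ev a D.primeFactors) ∧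
        ∀ a ∈ K, ¬ ev a D.primeFactors).card : ℝ) /
      (((Icc 1 X).filter fun D => Fam D).card : ℝ)) atTop
      (nhds (c2 ^ G.card * (1 - c2) ^ K.card)) := by
  induction K using Finset.induction_on with
  | empty =>
    intro _ G hG _
    have h := joint_fam G hG
    rw [Finset.card_empty, pow_zero, mul_one]
    refine h.congr fun X => ?_
    congr 3
    refine Finset.filter_congr fun D _ => ?_
    simp
  | insert m K hm ih =>
    intro hK G hG hd
    have hK' : ∀ a ∈ K, Cls a.2 := fun a ha => hK a (Finset.mem_insert_of_mem ha)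
    have hmA : Cls m.2 := hK m (Finset.mem_insert_self m K)
    have hmG : m ∉ G := fun h => Finset.disjoint_left.1 hd h (Finset.mem_insert_self m K)
    have hd1 : Disjoint G K := hd.mono_right (Finset.subset_insert m K)
    have hd2 : Disjoint (insert m G) K := Finset.disjoint_insert_left.2 ⟨hm, hd1⟩
    have h1 := ih hK' G hG hd1
    have h2 := ih hK' (insert m G) (fun a ha => by
      rcases Finset.mem_insert.1 ha with rfl | ha
      · exact hmA
      · exact hG a ha) hd2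
    have h3 := h1.sub h2
    rw [Finset.card_insert_of_notMem hmG] at h3
    rw [Finset.card_insert_of_notMem hm]
    have e : c2 ^ G.card * (1 - c2) ^ (K.card + 1) =
        c2 ^ G.card * (1 - c2) ^ K.card - c2 ^ (G.card + 1) * (1 - c2) ^ K.card := by ring
    rw [e]
    refine h3.congr fun X => ?_
    rw [← sub_div]
    congr 1
    have h4 := Finset.card_filter_add_card_filter_not (s := (Icc 1 X).filter fun D =>
      Fam D ∧ (∀ a ∈ G, ev a D.primeFactors) ∧ ∀ a ∈ K, ¬ ev a D.primeFactors)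
      (fun D => ev m D.primeFactors)
    rw [Finset.filter_filter, Finset.filter_filter] at h4
    have h5 : ((Icc 1 X).filter fun D => (Fam D ∧ (∀ a ∈ G, ev a D.primeFactors) ∧
        ∀ a ∈ K, ¬ ev a D.primeFactors) ∧ ev m D.primeFactors) =
        (Icc 1 X).filter fun D => Fam D ∧ (∀ a ∈ insert m G, ev a D.primeFactors) ∧
          ∀ a ∈ K, ¬ ev a D.primeFactors := by
      refine Finset.filter_congr fun D _ => ?_
      rw [Finset.forall_mem_insert]
      tauto
    have h6 : ((Icc 1 X).filter fun D => (Fam D ∧ (∀ a ∈ G, ev a D.primeFactors) ∧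
        ∀ a ∈ K, ¬ ev a D.primeFactors) ∧ ¬ ev m D.primeFactors) =
        (Icc 1 X).filter fun D => Fam D ∧ (∀ a ∈ G, ev a D.primeFactors) ∧
          ∀ a ∈ insert m K, ¬ ev a D.primeFactors := by
      refine Finset.filter_congr fun D _ => ?_
      rw [Finset.forall_mem_insert]
      tauto
    rw [h5, h6] at h4
    rw [← h4]
    push_cast
    ring

/-! ### the squarefree part -/

/-- the squarefree part of the product of two squarefree numbers -/
def st (m D : ℕ) : ℕ := m * D / (Nat.gcd m D) ^ 2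

theorem st_eq (m D : ℕ) (hm : m ≠ 0) : ∃ g a b : ℕ, 0 < g ∧ m = g * a ∧ D = g * b ∧
    Nat.Coprime a b ∧ st m D = a * b := by
  have hg : 0 < Nat.gcd m D := Nat.gcd_pos_of_pos_left D (Nat.pos_of_ne_zero hm)
  obtain ⟨a, ha⟩ := Nat.gcd_dvd_left m D
  obtain ⟨b, hb⟩ := Nat.gcd_dvd_right m D
  refine ⟨Nat.gcd m D, a, b, hg, ha, hb, ?_, ?_⟩
  · have h : Nat.gcd (Nat.gcd m D * a) (Nat.gcd m D * b) = Nat.gcd m D * Nat.gcd a b :=
      Nat.gcd_mul_left _ _ _
    rw [← ha, ← hb] at h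
    have h2 : Nat.gcd m D * 1 = Nat.gcd m D * Nat.gcd a b := by rw [mul_one]; exact h
    exact (Nat.eq_of_mul_eq_mul_left hg h2).symm
  · unfold st
    have e : m * D = a * b * (Nat.gcd m D) ^ 2 := by
      calc m * D = (Nat.gcd m D * a) * (Nat.gcd m D * b) := congrArg₂ (· * ·) ha hb
        _ = _ := by ring
    rw [e]
    exact Nat.mul_div_cancel _ (pow_pos hg 2)

lemma sqf_not {g a : ℕ} (h : Squarefree (g * a)) {p : ℕ} (hp : p.Prime) (h1 : p ∣ g) : ¬ p ∣ a := by
  intro h2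
  have h3 := h p (mul_dvd_mul h1 h2)
  rw [Nat.isUnit_iff] at h3
  exact hp.one_lt.ne' h3

/-- the class is closed -/
theorem st_cls {m D : ℕ} (hm : Cls m) (hD : Cls D) : Cls (st m D) ∧
    (st m D).primeFactors = symmDiff D.primeFactors m.primeFactors ∧
    (m % 8 = 1 → D % 8 = 1 → st m D % 8 = 1) := by
  have hm0 : m ≠ 0 := hm.1.ne_zero
  have hD0 : D ≠ 0 := hD.1.ne_zero
  obtain ⟨g, a, b, hg, h1, h2, hc, he⟩ := st_eq m D hm0
  have hsm : Squarefree (g * a) := h1 ▸ hm.1
  have hsD : Squarefree (g * b) := h2 ▸ hD.1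
  have ha0 : a ≠ 0 := by
    rintro rfl
    rw [mul_zero] at h1
    exact hm0 h1
  have hb0 : b ≠ 0 := by
    rintro rfl
    rw [mul_zero] at h2
    exact hD0 h2
  have hsab : Squarefree (a * b) :=
    (Nat.squarefree_mul hc).2 ⟨hsm.of_mul_right, hsD.of_mul_right⟩
  have hpf : (a * b).primeFactors = symmDiff D.primeFactors m.primeFactors := by
    ext p
    rw [Finset.mem_symmDiff, Nat.mem_primeFactors, Nat.mem_primeFactors, Nat.mem_primeFactors]
    by_cases hp : p.Prime
    · have k1 : p ∣ m ↔ (p ∣ g ∨ p ∣ a) := by rw [h1]; exact hp.dvd_mul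
      have k2 : p ∣ D ↔ (p ∣ g ∨ p ∣ b) := by rw [h2]; exact hp.dvd_mul
      have k3 : p ∣ a * b ↔ (p ∣ a ∨ p ∣ b) := hp.dvd_mul
      have k4 : p ∣ g → ¬ p ∣ a := sqf_not hsm hp
      have k5 : p ∣ g → ¬ p ∣ b := sqf_not hsD hp
      have k6 : p ∣ a → ¬ p ∣ b := by
        intro x y
        have := Nat.dvd_gcd x y
        rw [hc] at this
        exact hp.one_lt.ne' (Nat.dvd_one.1 this)
      have k7 : a * b ≠ 0 := mul_ne_zero ha0 hb0
      rw [k3, k1, k2]
      tauto
    · simp [hp]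
  rw [he]
  refine ⟨?_, hpf, ?_⟩
  · refine ⟨hsab, ?_⟩
    intro p hp h
    rcases hp.dvd_mul.1 h with h | h
    · exact hm.2 p hp (by rw [h1]; exact Dvd.dvd.mul_left h g)
    · exact hD.2 p hp (by rw [h2]; exact Dvd.dvd.mul_left h g)
  intro k1 k2
  rw [h1, Nat.mul_mod] at k1
  rw [h2, Nat.mul_mod] at k2
  rw [Nat.mul_mod]
  have e1 := Nat.mod_lt g (show 0 < 8 by norm_num)
  have e2 := Nat.mod_lt a (show 0 < 8 by norm_num)
  have e3 := Nat.mod_lt b (show 0 < 8 by norm_num)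
  generalize g % 8 = x at *
  generalize a % 8 = y at *
  generalize b % 8 = z at *
  interval_cases x <;> interval_cases y <;> simp at k1 <;> interval_cases z <;> simp_all

theorem st_eq_one {m D : ℕ} (hm : Cls m) (hD : Cls D) (h : st m D = 1) : D = m := by
  have h1 := (st_cls hm hD).2.1
  rw [h, Nat.primeFactors_one] at h1
  exact fam_inj hD hm (symmDiff_eq_bot.1 h1.symm)

theorem st_sq {m D : ℕ} (hm : Cls m) : m * D = st m D * (Nat.gcd m D) ^ 2 := by
  have hm0 : m ≠ 0 := hm.1.ne_zero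
  obtain ⟨g, a, b, hg, h1, h2, hc, he⟩ := st_eq m D hm0
  have hgcd : Nat.gcd m D = g := by
    rw [h1, h2, Nat.gcd_mul_left, hc, mul_one]
  rw [he, hgcd]
  calc m * D = (g * a) * (g * b) := congrArg₂ (· * ·) h1 h2
    _ = _ := by ring

/-- two counts with bounded difference and finite exceptions -/
theorem lim_ex {B : ℕ → Prop} {P Q : ℕ → Prop} {x : ℝ} (Ex : Finset ℕ)
    (h : ∀ D, B D → D ∉ Ex → (P D ↔ Q D))
    (hB : Tendsto (fun X : ℕ => (((Icc 1 X).filter fun D => B D).card : ℕ)) atTop atTop)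
    (hQ : Tendsto (fun X : ℕ => (((Icc 1 X).filter fun D => B D ∧ Q D).card : ℝ) /
      (((Icc 1 X).filter fun D => B D).card : ℝ)) atTop (nhds x)) :
    Tendsto (fun X : ℕ => (((Icc 1 X).filter fun D => B D ∧ P D).card : ℝ) /
      (((Icc 1 X).filter fun D => B D).card : ℝ)) atTop (nhds x) := by
  refine Pool.Agent.Y17.X.lim_of_close (B := fun X => ((Icc 1 X).filter fun D => B D).card)
    Ex.card (fun X => ?_) (fun X => ?_) hB hQ
  · refine le_trans (Finset.card_le_card ?_) (Finset.card_union_le _ _)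
    intro n hn
    obtain ⟨k1, k2, k3⟩ := Finset.mem_filter.1 hn
    by_cases hn1 : n ∈ Ex
    · exact Finset.mem_union_right _ hn1
    · exact Finset.mem_union_left _ (Finset.mem_filter.2 ⟨k1, k2, (h n k2 hn1).1 k3⟩)
  · refine le_trans (Finset.card_le_card ?_) (Finset.card_union_le _ _)
    intro n hn
    obtain ⟨k1, k2, k3⟩ := Finset.mem_filter.1 hn
    by_cases hn1 : n ∈ Ex
    · exact Finset.mem_union_right _ hn1
    · exact Finset.mem_union_left _ (Finset.mem_filter.2 ⟨k1, k2, (h n k2 hn1).2 k3⟩)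

lemma fam_prime {p : ℕ} (hp : p.Prime) (h : p ≡ 1 [MOD 56]) : Fam p := by
  have h56 : p % 56 = 1 := h
  refine ⟨hp.prime.squarefree, by omega, ?_⟩
  intro q hq hqp
  have h1 : q = p := (Nat.prime_dvd_prime_iff_eq hq hp).1 hqp
  subst h1
  exact Or.inl ⟨by omega, Or.inl (by omega)⟩

lemma fam_atTop : Tendsto (fun X : ℕ => (((Icc 1 X).filter fun D => Fam D).card : ℕ))
    atTop atTop := by
  rw [tendsto_atTop_atTop]
  intro b
  obtain ⟨t, ht, htc⟩ :=
    (Nat.infinite_setOfPred_prime_modEq_one (k := 56) (by norm_num)).exists_subset_card_eq b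
  refine ⟨t.sup id, fun X hX => ?_⟩
  rw [← htc]
  refine Finset.card_le_card fun p hp => ?_
  have h1 := ht hp
  have h2 : p ≤ X := (Finset.le_sup (f := id) hp).trans hX
  rw [Finset.mem_filter, Finset.mem_Icc]
  exact ⟨⟨h1.1.one_lt.le, h2⟩, fam_prime h1.1 h1.2⟩

/-- the condition on the events -/
def OkE (a : Bool × ℕ) : Prop := Cls a.2 ∧ (a.1 = false → a.2 % 8 = 1)

/-- the criterion for an event -/
def Cr (P : Bool → ℕ → Prop) : Prop := ∀ (b : Bool) (D : ℕ), OkE (b, D) → D ≠ 1 →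
  (P b D ↔ Gd (dg b) D.primeFactors)

/-- **the joint law**, for properties with the criterion -/
theorem law (P : Bool → ℕ → Prop) (hP : Cr P) (G K : Finset (Bool × ℕ)) (hG : ∀ a ∈ G, OkE a)
    (hK : ∀ a ∈ K, OkE a) (hd : Disjoint G K) : Tendsto
    (fun X : ℕ => (((Icc 1 X).filter fun D => Fam D ∧ ((∀ a ∈ G, P a.1 (st a.2 D)) ∧
        ∀ a ∈ K, ¬ P a.1 (st a.2 D))).card : ℝ) /
      (((Icc 1 X).filter fun D => Fam D).card : ℝ)) atTop
      (nhds (c2 ^ G.card * (1 - c2) ^ K.card)) := by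
  obtain ⟨Q, hQ⟩ : ∃ Q : ℕ → Prop, ∀ D, Q D ↔ ((∀ a ∈ G, ev a D.primeFactors) ∧
    ∀ a ∈ K, ¬ ev a D.primeFactors) := ⟨_, fun _ => Iff.rfl⟩
  obtain ⟨R, hR⟩ : ∃ R : ℕ → Prop, ∀ D, R D ↔ ((∀ a ∈ G, P a.1 (st a.2 D)) ∧
    ∀ a ∈ K, ¬ P a.1 (st a.2 D)) := ⟨_, fun _ => Iff.rfl⟩
  have hpat : Tendsto (fun X : ℕ => (((Icc 1 X).filter fun D => Fam D ∧ Q D).card : ℝ) /
      (((Icc 1 X).filter fun D => Fam D).card : ℝ)) atTop
      (nhds (c2 ^ G.card * (1 - c2) ^ K.card)) := by
    refine (pattern_fam K (fun a ha => (hK a ha).1) G (fun a ha => (hG a ha).1) hd).congr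
      fun X => ?_
    refine congrArg₂ (fun a b : ℕ => (a : ℝ) / (b : ℝ)) (congrArg Finset.card ?_) rfl
    ext D
    simp only [Finset.mem_filter, hQ]
  have hmain := lim_ex (B := Fam) (P := R) (Q := Q) (G.image Prod.snd ∪ K.image Prod.snd)
      (fun D hD hne => ?_) fam_atTop hpat
  · refine hmain.congr fun X => ?_
    refine congrArg₂ (fun a b : ℕ => (a : ℝ) / (b : ℝ)) (congrArg Finset.card ?_) rfl
    ext D
    simp only [Finset.mem_filter, hR]
  rw [hQ, hR]
  have hDc := (fam_cls D).1 hD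
  have key : ∀ a : Bool × ℕ, a ∈ G ∪ K → (P a.1 (st a.2 D) ↔ ev a D.primeFactors) := by
    intro a ha
    have ha2 : OkE a := by
      rcases Finset.mem_union.1 ha with h | h
      · exact hG a h
      · exact hK a h
    obtain ⟨k1, k2, k3⟩ := st_cls ha2.1 hDc.1
    rw [hP a.1 (st a.2 D) ⟨k1, fun h => k3 (ha2.2 h) hDc.2⟩, k2]
    · rfl
    · intro h
      have h3 := st_eq_one ha2.1 hDc.1 h
      apply hne
      rw [h3, ← Finset.image_union]
      exact Finset.mem_image_of_mem _ ha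
  constructor
  · rintro ⟨h1, h2⟩
    exact ⟨fun a ha => (key a (mem_union_left _ ha)).1 (h1 a ha),
      fun a ha h => h2 a ha ((key a (mem_union_right _ ha)).2 h)⟩
  · rintro ⟨h1, h2⟩
    exact ⟨fun a ha => (key a (mem_union_left _ ha)).2 (h1 a ha),
      fun a ha h => h2 a ha ((key a (mem_union_right _ ha)).1 h)⟩

end Pool.Agent.Q7.JF
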