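import Pool.Agent.Q7.JF.Law
import Pool.Agent.Q160.JX.Joint
import Pool.Agent.Y17.X.Sel

/-!
# The criteria for the twists of `X_0(14)` and of `X_0(49)`, and the lower bound for the counts
-/

set_option autoImplicit false

open scoped Classical
open Finset Filter

namespace Pool.Agent.Q7.JF

open Pool.Agent.Y17.X (fD RZ)
open Pool.Agent.Y698.SG (n4)
open Pool.Agent.Y703.CQ (nr Gd Cl c2 Ok)
open Pool.Agent.Y687.MQ (AdmD)
open Pool.Agent.Q6.XK (Fam fam_iff Triv)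

theorem adm_one : AdmD 1 := by
  refine ⟨squarefree_one, by norm_num, Or.inl (by norm_num), fun p hp h => ?_⟩
  exfalso
  have h1 : p ∣ 1 := by exact_mod_cast h
  exact hp.one_lt.ne' (Nat.dvd_one.1 h1)

lemma mod7_prod {S : Finset ℕ} (hS : ∀ p ∈ S,
    (p % 8 = 1 ∧ (p % 7 = 1 ∨ p % 7 = 2 ∨ p % 7 = 4)) ∨
    (p % 8 = 5 ∧ (p % 7 = 3 ∨ p % 7 = 5 ∨ p % 7 = 6))) :
    ((∏ p ∈ S, p) % 8 = 1 ∧ ((∏ p ∈ S, p) % 7 = 1 ∨ (∏ p ∈ S, p) % 7 = 2 ∨ (∏ p ∈ S, p) % 7 = 4)) ∨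
    ((∏ p ∈ S, p) % 8 = 5 ∧ ((∏ p ∈ S, p) % 7 = 3 ∨ (∏ p ∈ S, p) % 7 = 5 ∨
      (∏ p ∈ S, p) % 7 = 6)) := by
  induction S using Finset.induction_on with
  | empty => left; simp
  | insert a S ha ih =>
    have h1 := ih fun p hp => hS p (Finset.mem_insert_of_mem hp)
    rw [Finset.prod_insert ha, Nat.mul_mod a _ 8, Nat.mul_mod a _ 7]
    rcases hS a (Finset.mem_insert_self a S) with ⟨h, h'⟩ | ⟨h, h'⟩ <;>
    rcases h1 with ⟨k1, k2⟩ | ⟨k1, k2⟩ <;> rw [h, k1] <;>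
    rcases h' with h' | h' | h' <;> rcases k2 with k2 | k2 | k2 <;> rw [h', k2] <;> simp

theorem adm_of {D : ℕ} (h : Fam D) : AdmD (D : ℤ) := by
  have h7 := mod7_prod (S := D.primeFactors) (by
    intro p hp
    obtain ⟨k1, k2, -⟩ := Nat.mem_primeFactors.1 hp
    exact h.2.2 p k1 k2)
  rw [Nat.prod_primeFactors_of_squarefree h.1] at h7
  have h8 := h.2.1
  refine ⟨Int.squarefree_natCast.2 h.1, by omega, by omega, ?_⟩
  intro p hp hd
  have h1 := h.2.2 p hp (by exact_mod_cast hd)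
  refine ⟨by omega, ?_⟩
  rcases h1 with h1 | h1
  · exact Or.inl ⟨hp, h1⟩
  · exact Or.inr ⟨hp, Or.inr h1.1, h1.2⟩

/-- the criterion for `X_0(14)` -/
theorem cr14 {D : ℕ} (h : Fam D) : RZ (D : ℤ) ↔ Gd fD D.primeFactors := by
  rw [Pool.Agent.Y17.X.rz_iff (adm_of h), ← Pool.Agent.Y17.X.gd_iff (adm_of h), Int.natAbs_natCast]

/-- the criterion for `X_0(49)` -/
theorem cr49 {D : ℕ} (h : Cls D) : Triv (D : ℤ) ↔ Gd n4 D.primeFactors := by
  have h1 : Pool.Agent.Q160.JX.Class 1 :=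
    ⟨squarefree_one, fun p hp hd => absurd (Nat.dvd_one.1 hd) hp.one_lt.ne'⟩
  have h2 := Pool.Agent.Q160.JX.rz_iff h1 (D := D) h
  have e : Pool.Agent.Q160.JX.star 1 D = D := by
    unfold Pool.Agent.Q160.JX.star
    simp
  rw [e, Nat.primeFactors_one] at h2
  rw [h2]
  have : symmDiff D.primeFactors ∅ = D.primeFactors := symmDiff_bot _
  rw [this]

/-- finitely many rational points and `Ш[2] = 0`, for both curves -/
def RZ2 (b : Bool) (D : ℕ) : Prop := if b then Triv (D : ℤ) else RZ (D : ℤ)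

theorem cr_RZ2 : Cr RZ2 := by
  intro b D h _
  cases b
  · exact cr14 ((fam_cls D).2 ⟨h.1, h.2 rfl⟩)
  · exact cr49 h.1

/-- **the joint law and the lower bound**, for properties with the criterion -/
theorem law_low (P : Bool → ℕ → Prop) (hP : Cr P) (G K : Finset (Bool × ℕ))
    (hG : ∀ a ∈ G, OkE a) (hK : ∀ a ∈ K, OkE a) (hd : Disjoint G K) :
    Tendsto (fun X : ℕ => (((Icc 1 X).filter fun D => Fam D ∧ ((∀ a ∈ G, P a.1 (st a.2 D)) ∧
        ∀ a ∈ K, ¬ P a.1 (st a.2 D))).card : ℝ) /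
      (((Icc 1 X).filter fun D => Fam D).card : ℝ)) atTop
      (nhds (c2 ^ G.card * (1 - c2) ^ K.card)) ∧
    ∃ (a : ℝ) (X₀ : ℕ), 0 < a ∧ ∀ X : ℕ, X₀ ≤ X → a * (X * (Real.log X) ^ (-(3 / 4) : ℝ)) ≤
      (((Icc 1 X).filter fun D => Fam D ∧ ((∀ a ∈ G, P a.1 (st a.2 D)) ∧
        ∀ a ∈ K, ¬ P a.1 (st a.2 D))).card : ℝ) := by
  have hlim := law P hP G K hG hK hd
  refine ⟨hlim, ?_⟩
  obtain ⟨hc0, hc1, hc2, -⟩ := Pool.Agent.Q160.JX.const
  have hpos : (0 : ℝ) < c2 ^ G.card * (1 - c2) ^ K.card := by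
    have k1 : (0 : ℝ) < c2 := hc0
    have k2 : (0 : ℝ) < 1 - c2 := by linarith
    positivity
  obtain ⟨c, X₀, hc, hlow⟩ := Pool.Agent.Q160.JX.low
  have hcount : ∀ X, Pool.Agent.Q160.JX.count (fun _ => True) X =
      ((Icc 1 X).filter fun D => Fam D).card := by
    intro X
    refine Pool.Agent.Q160.JX.count_card _ _ _ fun D => ?_
    rw [Finset.mem_filter, and_true, Pool.Agent.Q160.JX.fam_iff']
  have h1 := hlim.eventually_const_lt
    (show c2 ^ G.card * (1 - c2) ^ K.card / 2 < c2 ^ G.card * (1 - c2) ^ K.card by linarith)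
  have h2 := (tendsto_natCast_atTop_atTop (R := ℝ)).comp fam_atTop |>.eventually_gt_atTop 0
  obtain ⟨X₁, hX₁⟩ := eventually_atTop.1 (h1.and (h2.and (eventually_ge_atTop X₀)))
  refine ⟨c2 ^ G.card * (1 - c2) ^ K.card / 2 * c, X₁, by positivity, fun X hX => ?_⟩
  obtain ⟨k1, k2, k3⟩ := hX₁ X hX
  have k2' : (0 : ℝ) < (((Icc 1 X).filter fun D => Fam D).card : ℝ) := k2
  have k5 := (lt_div_iff₀ k2').1 k1
  have k6 := hlow X k3
  rw [hcount] at k6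
  calc c2 ^ G.card * (1 - c2) ^ K.card / 2 * c * (X * (Real.log X) ^ (-(3 / 4) : ℝ)) =
      c2 ^ G.card * (1 - c2) ^ K.card / 2 * (c * (X * (Real.log X) ^ (-(3 / 4) : ℝ))) := by ring
    _ ≤ c2 ^ G.card * (1 - c2) ^ K.card / 2 * (((Icc 1 X).filter fun D => Fam D).card : ℝ) :=
        mul_le_mul_of_nonneg_left k6 (by positivity)
    _ ≤ _ := k5.le

/-- the pairs -/
noncomputable def prs (A B : Finset ℕ) : Finset (Bool × ℕ) :=
  A.image (Prod.mk false) ∪ B.image (Prod.mk true)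

lemma mem_prs {A B : Finset ℕ} {a : Bool × ℕ} :
    a ∈ prs A B ↔ (a.1 = false ∧ a.2 ∈ A) ∨ (a.1 = true ∧ a.2 ∈ B) := by
  obtain ⟨b, m⟩ := a
  unfold prs
  rw [mem_union, mem_image, mem_image]
  constructor
  · rintro (⟨x, hx, h⟩ | ⟨x, hx, h⟩)
    · rw [Prod.mk.injEq] at h
      exact Or.inl ⟨h.1.symm, h.2 ▸ hx⟩
    · rw [Prod.mk.injEq] at h
      exact Or.inr ⟨h.1.symm, h.2 ▸ hx⟩
  · rintro (⟨h, hx⟩ | ⟨h, hx⟩)
    · exact Or.inl ⟨m, hx, by rw [Prod.mk.injEq]; exact ⟨h.symm, rfl⟩⟩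
    · exact Or.inr ⟨m, hx, by rw [Prod.mk.injEq]; exact ⟨h.symm, rfl⟩⟩

lemma card_prs (A B : Finset ℕ) : (prs A B).card = A.card + B.card := by
  unfold prs
  rw [Finset.card_union_of_disjoint, Finset.card_image_of_injective _ (Prod.mk_right_injective _),
    Finset.card_image_of_injective _ (Prod.mk_right_injective _)]
  rw [Finset.disjoint_left]
  intro a h1 h2
  obtain ⟨x, -, rfl⟩ := mem_image.1 h1
  obtain ⟨y, -, h⟩ := mem_image.1 h2
  rw [Prod.mk.injEq] at h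
  exact absurd h.1 (by decide)

lemma forall_prs {A B : Finset ℕ} {Q : Bool × ℕ → Prop} : (∀ a ∈ prs A B, Q a) ↔
    (∀ m ∈ A, Q (false, m)) ∧ ∀ m ∈ B, Q (true, m) := by
  constructor
  · intro h
    exact ⟨fun m hm => h _ (mem_prs.2 (Or.inl ⟨rfl, hm⟩)),
      fun m hm => h _ (mem_prs.2 (Or.inr ⟨rfl, hm⟩))⟩
  · rintro ⟨h1, h2⟩ ⟨b, m⟩ ha
    rcases mem_prs.1 ha with ⟨h3, h4⟩ | ⟨h3, h4⟩
    · simp only at h3 h4
      subst h3
      exact h1 m h4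
    · simp only at h3 h4
      subst h3
      exact h2 m h4

/-- the number of the `D ≤ X` in the family with the property `Q` -/
noncomputable def cnt (Q : ℕ → Prop) (X : ℕ) : ℕ := ((Icc 1 X).filter fun D => Fam D ∧ Q D).card

/-- **the joint law and the lower bound**, for four finite sets -/
theorem law4 (P14 P49 : ℕ → Prop)
    (h14 : ∀ D, Fam D → D ≠ 1 → (P14 D ↔ RZ (D : ℤ)))
    (h49 : ∀ D, Cls D → D ≠ 1 → (P49 D ↔ Triv (D : ℤ)))
    (G G' K K' : Finset ℕ) (hG : ∀ m ∈ G, Fam m) (hG' : ∀ m ∈ G', Cls m)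
    (hK : ∀ m ∈ K, Fam m) (hK' : ∀ m ∈ K', Cls m) (hd : Disjoint G K) (hd' : Disjoint G' K') :
    Tendsto (fun X : ℕ => (cnt (fun D => ((∀ m ∈ G, P14 (st m D)) ∧ ∀ m ∈ G', P49 (st m D)) ∧
        (∀ m ∈ K, ¬ P14 (st m D)) ∧ ∀ m ∈ K', ¬ P49 (st m D)) X : ℝ) / (cnt (fun _ => True) X : ℝ))
      atTop (nhds (c2 ^ (G.card + G'.card) * (1 - c2) ^ (K.card + K'.card))) ∧
    ∃ (a : ℝ) (X₀ : ℕ), 0 < a ∧ ∀ X : ℕ, X₀ ≤ X → a * (X * (Real.log X) ^ (-(3 / 4) : ℝ)) ≤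
      (cnt (fun D => ((∀ m ∈ G, P14 (st m D)) ∧ ∀ m ∈ G', P49 (st m D)) ∧
        (∀ m ∈ K, ¬ P14 (st m D)) ∧ ∀ m ∈ K', ¬ P49 (st m D)) X : ℝ) := by
  obtain ⟨P, hPf, hPt⟩ : ∃ P : Bool → ℕ → Prop, (∀ D, P false D ↔ P14 D) ∧
      ∀ D, P true D ↔ P49 D :=
    ⟨fun b D => if b = true then P49 D else P14 D, fun D => by simp, fun D => by simp⟩
  have hP : Cr P := by
    intro b D h h1
    cases b
    · exact (hPf D).trans ((h14 D ((fam_cls D).2 ⟨h.1, h.2 rfl⟩) h1).trans (cr_RZ2 false D h h1))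
    · exact (hPt D).trans ((h49 D h.1 h1).trans (cr_RZ2 true D h h1))
  have hok : ∀ A B : Finset ℕ, (∀ m ∈ A, Fam m) → (∀ m ∈ B, Cls m) → ∀ a ∈ prs A B, OkE a := by
    intro A B hA hB
    rw [forall_prs]
    exact ⟨fun m hm => ⟨((fam_cls m).1 (hA m hm)).1, fun _ => ((fam_cls m).1 (hA m hm)).2⟩,
      fun m hm => ⟨hB m hm, fun h => Bool.noConfusion h⟩⟩
  have hdis : Disjoint (prs G G') (prs K K') := by
    rw [Finset.disjoint_left]
    intro a h1 h2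
    rcases mem_prs.1 h1 with h3 | h3 <;> rcases mem_prs.1 h2 with h4 | h4
    · exact Finset.disjoint_left.1 hd h3.2 h4.2
    · rw [h3.1] at h4
      exact absurd h4.1 (by decide)
    · rw [h3.1] at h4
      exact absurd h4.1 (by decide)
    · exact Finset.disjoint_left.1 hd' h3.2 h4.2
  obtain ⟨h1, h2⟩ := law_low P hP (prs G G') (prs K K') (hok G G' hG hG') (hok K K' hK hK') hdis
  rw [card_prs, card_prs] at h1
  have e : ∀ X : ℕ, ((Icc 1 X).filter fun D => Fam D ∧ ((∀ a ∈ prs G G', P a.1 (st a.2 D)) ∧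
        ∀ a ∈ prs K K', ¬ P a.1 (st a.2 D))).card =
      cnt (fun D => ((∀ m ∈ G, P14 (st m D)) ∧ ∀ m ∈ G', P49 (st m D)) ∧
        (∀ m ∈ K, ¬ P14 (st m D)) ∧ ∀ m ∈ K', ¬ P49 (st m D)) X := by
    intro X
    unfold cnt
    congr 1
    ext D
    simp only [mem_filter, forall_prs, hPf, hPt]
  have e2 : ∀ X : ℕ, ((Icc 1 X).filter fun D => Fam D).card = cnt (fun _ => True) X := by
    intro X
    unfold cnt
    congr 1
    ext D
    simp only [mem_filter, and_true]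
  refine ⟨?_, ?_⟩
  · refine h1.congr fun X => ?_
    rw [← e2, ← e]
  · obtain ⟨a, X₀, ha, h3⟩ := h2
    refine ⟨a, X₀, ha, fun X hX => ?_⟩
    rw [← e]
    exact h3 X hX

end Pool.Agent.Q7.JF
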